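import Pool.Agent.R181.Maj

/-!
# Congruences of algebras with Gumm operations

Day's shifting lemma, the modular law, the term condition between three congruences, and their
permutability between the lower and the upper median.
-/

set_option autoImplicit false

namespace Pool.Agent.K9h48.BM

open Pool.Agent.R181.Maj (Compat compat_inf compat_sup)

/-- Gumm operations: `d 0, …, d m` and `p`. -/
structure Gumm {A : Type*} (m : ℕ) (d : ℕ → A → A → A → A) (p : A → A → A → A) : Prop where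
  zero : ∀ x y z, d 0 x y z = x
  idem : ∀ j ≤ m, ∀ x y, d j x y x = x
  even : ∀ j < m, Even j → ∀ x z, d j x x z = d (j + 1) x x z
  odd : ∀ j < m, Odd j → ∀ x z, d j x z z = d (j + 1) x z z
  last : ∀ x z, d m x z z = p x z z
  mal : ∀ x z, p x x z = z

variable {A : Type*} {m : ℕ} {d : ℕ → A → A → A → A} {p : A → A → A → A}

theorem Gumm.chain (h : Gumm m d p) (κ : Setoid A) {x z : A}
    (hk : ∀ j ≤ m, κ (d j x x z) (d j x z z)) : κ x (p x z z) := by
  have h1 : ∀ j ≤ m, κ x (d j x x z) := by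
    intro j
    induction j with
    | zero =>
      intro _
      rw [h.zero]
    | succ j ih =>
      intro hj
      have h2 := ih (by omega)
      rcases Nat.even_or_odd j with he | ho
      · rw [← h.even j (by omega) he]
        exact h2
      · have h3 := κ.trans h2 (hk j (by omega))
        rw [h.odd j (by omega) ho] at h3
        exact κ.trans h3 (κ.symm (hk (j + 1) hj))
  rw [← h.last]
  exact κ.trans (h1 m le_rfl) (hk m le_rfl)

theorem Gumm.pidem (h : Gumm m d p) (x : A) : p x x x = x := h.mal x x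

/-- Induction along a path. -/
theorem sup_ind {r s : Setoid A} {Q : A → Prop} (hr : ∀ y z, r y z → Q y → Q z)
    (hs : ∀ y z, s y z → Q y → Q z) {x y : A} (h : (r ⊔ s) x y) (hx : Q x) : Q y := by
  have h1 : r ⊔ s ≤ Setoid.ker Q := by
    refine sup_le ?_ ?_
    · intro a b hab
      exact propext ⟨hr a b hab, hr b a (r.symm hab)⟩
    · intro a b hab
      exact propext ⟨hs a b hab, hs b a (s.symm hab)⟩
  have h2 : Q x = Q y := h1 h
  rw [← h2]
  exact hx

/-- Congruences. -/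
structure Cg (m : ℕ) (d : ℕ → A → A → A → A) (p : A → A → A → A) (s : Setoid A) : Prop where
  cd : ∀ j ≤ m, Compat (d j) s
  cp : Compat p s

theorem Cg.inf {s t : Setoid A} (hs : Cg m d p s) (ht : Cg m d p t) : Cg m d p (s ⊓ t) :=
  ⟨fun j hj => compat_inf (hs.cd j hj) (ht.cd j hj), compat_inf hs.cp ht.cp⟩

theorem Cg.sup {s t : Setoid A} (hs : Cg m d p s) (ht : Cg m d p t) : Cg m d p (s ⊔ t) :=
  ⟨fun j hj => compat_sup (hs.cd j hj) (ht.cd j hj), compat_sup hs.cp ht.cp⟩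

/-- Compatible reflexive symmetric relations. -/
structure Tol (m : ℕ) (d : ℕ → A → A → A → A) (p : A → A → A → A) (Λ : A → A → Prop) : Prop where
  refl : ∀ x, Λ x x
  symm : ∀ x y, Λ x y → Λ y x
  cd : ∀ j ≤ m, ∀ a a' b b' c c', Λ a a' → Λ b b' → Λ c c' → Λ (d j a b c) (d j a' b' c')
  cp : ∀ a a' b b' c c', Λ a a' → Λ b b' → Λ c c' → Λ (p a b c) (p a' b' c')

/-- The shifting lemma. -/
theorem shift (h : Gumm m d p) {γ κ : Setoid A} (hγ : Cg m d p γ) (hκ : Cg m d p κ) (hκγ : κ ≤ γ)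
    {Λ : A → A → Prop} (hΛ : Tol m d p Λ) (hΛγ : ∀ x y, Λ x y → γ x y → κ x y) {z w u v : A}
    (hzw : γ z w) (h1 : Λ z u) (h2 : κ u v) (h3 : Λ v w) : κ z w := by
  have e1 : κ z (p z w w) := by
    refine h.chain κ fun j hj => ?_
    have g1 : ∀ s, γ z (d j z s w) := by
      intro s
      have := hγ.cd j hj z z s s z w (γ.refl _) (γ.refl _) hzw
      rwa [h.idem j hj] at this
    have a1 : κ (d j z u w) (d j z z w) :=
      hΛγ _ _ (hΛ.cd j hj _ _ _ _ _ _ (hΛ.refl _) (hΛ.symm _ _ h1) (hΛ.refl _))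
        (γ.trans (γ.symm (g1 u)) (g1 z))
    have a2 : κ (d j z v w) (d j z w w) :=
      hΛγ _ _ (hΛ.cd j hj _ _ _ _ _ _ (hΛ.refl _) h3 (hΛ.refl _))
        (γ.trans (γ.symm (g1 v)) (g1 w))
    have a3 : κ (d j z u w) (d j z v w) := hκ.cd j hj _ _ _ _ _ _ (κ.refl _) h2 (κ.refl _)
    exact κ.trans (κ.symm a1) (κ.trans a3 a2)
  have e2 : κ (p u v w) w := by
    have := hκ.cp u u v u w w (κ.refl _) (κ.symm h2) (κ.refl _)
    rwa [h.mal] at this
  have e3 : γ (p z w w) w := by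
    have := hγ.cp z w w w w w hzw (γ.refl _) (γ.refl _)
    rwa [h.mal] at this
  have e4 : κ (p u v w) (p z w w) :=
    hΛγ _ _ (hΛ.cp _ _ _ _ _ _ (hΛ.symm _ _ h1) h3 (hΛ.refl _))
      (γ.trans (hκγ e2) (γ.symm e3))
  exact κ.trans e1 (κ.trans (κ.symm e4) e2)

/-- Zigzags. -/
def zig (β κ : Setoid A) : ℕ → A → A → Prop
  | 0 => fun x y => β x y
  | n + 1 => fun x y => ∃ u v, zig β κ n x u ∧ κ u v ∧ zig β κ n v y

theorem zig_tol {β κ : Setoid A} (hβ : Cg m d p β) (hκ : Cg m d p κ) (n : ℕ) :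
    Tol m d p (zig β κ n) := by
  induction n with
  | zero =>
    exact ⟨fun x => β.refl x, fun x y h => β.symm h,
      fun j hj a a' b b' c c' h1 h2 h3 => hβ.cd j hj _ _ _ _ _ _ h1 h2 h3,
      fun a a' b b' c c' h1 h2 h3 => hβ.cp _ _ _ _ _ _ h1 h2 h3⟩
  | succ n ih =>
    refine ⟨fun x => ⟨x, x, ih.refl x, κ.refl x, ih.refl x⟩, ?_, ?_, ?_⟩
    · rintro x y ⟨u, v, h1, h2, h3⟩
      exact ⟨v, u, ih.symm _ _ h3, κ.symm h2, ih.symm _ _ h1⟩
    · rintro j hj a a' b b' c c' ⟨u1, v1, h1, k1, l1⟩ ⟨u2, v2, h2, k2, l2⟩ ⟨u3, v3, h3, k3, l3⟩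
      exact ⟨d j u1 u2 u3, d j v1 v2 v3, ih.cd j hj _ _ _ _ _ _ h1 h2 h3,
        hκ.cd j hj _ _ _ _ _ _ k1 k2 k3, ih.cd j hj _ _ _ _ _ _ l1 l2 l3⟩
    · rintro a a' b b' c c' ⟨u1, v1, h1, k1, l1⟩ ⟨u2, v2, h2, k2, l2⟩ ⟨u3, v3, h3, k3, l3⟩
      exact ⟨p u1 u2 u3, p v1 v2 v3, ih.cp _ _ _ _ _ _ h1 h2 h3,
        hκ.cp _ _ _ _ _ _ k1 k2 k3, ih.cp _ _ _ _ _ _ l1 l2 l3⟩

/-- The modular law. -/
theorem modular (h : Gumm m d p) {β γ κ : Setoid A} (hβ : Cg m d p β) (hγ : Cg m d p γ)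
    (hκ : Cg m d p κ) (h1 : β ⊓ γ ≤ κ) (h2 : κ ≤ γ) {x y : A} (hxy : γ x y)
    (hs : (β ⊔ κ) x y) : κ x y := by
  have hT := zig_tol (m := m) (d := d) (p := p) hβ hκ
  have h3 : ∀ n x y, zig β κ n x y → γ x y → κ x y := by
    intro n
    induction n with
    | zero =>
      intro x y hz hg
      exact h1 ⟨hz, hg⟩
    | succ n ih =>
      rintro x y ⟨u, v, a1, a2, a3⟩ hg
      exact shift h hγ hκ h2 (hT n) ih hg a1 a2 a3
  have h4 : ∀ n y z, β y z → zig β κ n y z := by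
    intro n
    induction n with
    | zero => exact fun y z hyz => hyz
    | succ n ih => exact fun y z hyz => ⟨z, z, ih y z hyz, κ.refl _, (hT n).refl z⟩
  obtain ⟨n, hn⟩ : ∃ n, zig β κ n x y := by
    refine sup_ind (Q := fun y => ∃ n, zig β κ n x y) ?_ ?_ hs ⟨0, β.refl x⟩
    · rintro y z hyz ⟨n, hn⟩
      exact ⟨n + 1, y, y, hn, κ.refl _, h4 n y z hyz⟩
    · rintro y z hyz ⟨n, hn⟩
      exact ⟨n + 1, y, z, hn, hyz, (hT n).refl z⟩
  exact h3 n x y hn hxy

section three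

variable {θ : Fin 3 → Setoid A}

/-- The lower median of three congruences. -/
def low (θ : Fin 3 → Setoid A) : Setoid A := (θ 0 ⊓ θ 1) ⊔ (θ 1 ⊓ θ 2) ⊔ (θ 0 ⊓ θ 2)

/-- The upper median of three congruences. -/
def up (θ : Fin 3 → Setoid A) : Setoid A := (θ 0 ⊔ θ 1) ⊓ (θ 1 ⊔ θ 2) ⊓ (θ 0 ⊔ θ 2)

theorem inf_le_low {i j : Fin 3} (hij : i ≠ j) : θ i ⊓ θ j ≤ low θ := by
  have h1 : θ 0 ⊓ θ 1 ≤ low θ := le_sup_left.trans le_sup_left
  have h2 : θ 1 ⊓ θ 2 ≤ low θ := le_sup_right.trans le_sup_left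
  have h3 : θ 0 ⊓ θ 2 ≤ low θ := le_sup_right
  fin_cases i <;> fin_cases j <;> first
    | exact absurd rfl hij
    | exact h1
    | exact h2
    | exact h3
    | exact (inf_comm _ _).le.trans h1
    | exact (inf_comm _ _).le.trans h2
    | exact (inf_comm _ _).le.trans h3

theorem up_le {i j : Fin 3} (hij : i ≠ j) : up θ ≤ θ i ⊔ θ j := by
  have h1 : up θ ≤ θ 0 ⊔ θ 1 := inf_le_left.trans inf_le_left
  have h2 : up θ ≤ θ 1 ⊔ θ 2 := inf_le_left.trans inf_le_right
  have h3 : up θ ≤ θ 0 ⊔ θ 2 := inf_le_right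
  fin_cases i <;> fin_cases j <;> first
    | exact absurd rfl hij
    | exact h1
    | exact h2
    | exact h3
    | exact h1.trans (sup_comm _ _).le
    | exact h2.trans (sup_comm _ _).le
    | exact h3.trans (sup_comm _ _).le

theorem low_le {w : Setoid A} (h : ∀ i j : Fin 3, i ≠ j → θ i ⊓ θ j ≤ w) : low θ ≤ w :=
  sup_le (sup_le (h 0 1 (by decide)) (h 1 2 (by decide))) (h 0 2 (by decide))

theorem le_up {w : Setoid A} (h : ∀ i j : Fin 3, i ≠ j → w ≤ θ i ⊔ θ j) : w ≤ up θ :=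
  le_inf (le_inf (h 0 1 (by decide)) (h 1 2 (by decide))) (h 0 2 (by decide))

theorem third : ∀ i j : Fin 3, i ≠ j → ∃ k, k ≠ i ∧ k ≠ j ∧ ∀ l, l = i ∨ l = j ∨ l = k := by
  decide

theorem low_le_up : low θ ≤ up θ := by
  refine low_le fun i j hij => le_up fun a b hab => ?_
  have h : a = i ∨ a = j ∨ b = i ∨ b = j := by
    revert i j a b
    decide
  rcases h with rfl | rfl | rfl | rfl
  · exact inf_le_left.trans le_sup_left
  · exact inf_le_right.trans le_sup_left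
  · exact inf_le_left.trans le_sup_right
  · exact inf_le_right.trans le_sup_right

variable (h : Gumm m d p) (hθ : ∀ i, Cg m d p (θ i))

include hθ in
theorem cg_low : Cg m d p (low θ) :=
  (((hθ 0).inf (hθ 1)).sup ((hθ 1).inf (hθ 2))).sup ((hθ 0).inf (hθ 2))

include hθ in
theorem cg_up : Cg m d p (up θ) :=
  (((hθ 0).sup (hθ 1)).inf ((hθ 1).sup (hθ 2))).inf ((hθ 0).sup (hθ 2))

include h hθ in
/-- `θ j ⊓ (θ i ⊔ low) ≤ low`. -/
theorem fact1 {i j : Fin 3} (hij : i ≠ j) {x y : A} (h1 : θ j x y) (h2 : (θ i ⊔ low θ) x y) :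
    low θ x y := by
  obtain ⟨k, hki, hkj, hl⟩ := third i j hij
  set κ : Setoid A := (θ j ⊓ θ k) ⊔ (θ i ⊓ θ j) with hκ
  have hκc : Cg m d p κ := ((hθ j).inf (hθ k)).sup ((hθ i).inf (hθ j))
  have hκl : κ ≤ low θ := sup_le (inf_le_low hkj.symm) (inf_le_low hij)
  have hκj : κ ≤ θ j := sup_le inf_le_left inf_le_right
  have h3 : θ i ⊔ low θ ≤ θ i ⊔ κ := by
    refine sup_le le_sup_left (low_le fun a b hab => ?_)
    rcases hl a with rfl | rfl | rfl
    · exact inf_le_left.trans le_sup_left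
    · rcases hl b with rfl | rfl | rfl
      · exact inf_le_right.trans le_sup_left
      · exact absurd rfl hab
      · exact le_sup_left.trans le_sup_right
    · rcases hl b with rfl | rfl | rfl
      · exact inf_le_right.trans le_sup_left
      · exact (inf_comm _ _).le.trans (le_sup_left.trans le_sup_right)
      · exact absurd rfl hab
  exact hκl (modular h (hθ i) (hθ j) hκc (le_sup_right) hκj h1 (h3 h2))

include h hθ in
/-- `up ≤ (θ i ⊓ up) ⊔ (θ j ⊓ up)`. -/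
theorem fact2 {i j : Fin 3} (hij : i ≠ j) : up θ ≤ (θ i ⊓ up θ) ⊔ (θ j ⊓ up θ) := by
  obtain ⟨k, hki, hkj, hl⟩ := third i j hij
  set B : Setoid A := θ j ⊓ (θ i ⊔ θ k) with hB
  set κ1 : Setoid A := θ i ⊔ B with hκ1
  set κ2 : Setoid A := B ⊔ ((θ j ⊔ θ k) ⊓ θ i) with hκ2
  have hBc : Cg m d p B := (hθ j).inf ((hθ i).sup (hθ k))
  have hκ1c : Cg m d p κ1 := (hθ i).sup hBc
  have hκ2c : Cg m d p κ2 := hBc.sup (((hθ j).sup (hθ k)).inf (hθ i))
  intro x y hxy
  have e1 : (θ i ⊔ θ k) x y := up_le hki.symm hxy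
  have e2 : (θ i ⊔ θ j) x y := up_le hij hxy
  have e3 : (θ j ⊔ θ k) x y := up_le hkj.symm hxy
  have e4 : κ1 x y := by
    refine modular h (β := θ j) (γ := θ i ⊔ θ k) (hθ j) ((hθ i).sup (hθ k)) hκ1c le_sup_right
      (sup_le le_sup_left inf_le_right) e1 ?_
    have : θ i ⊔ θ j ≤ θ j ⊔ κ1 := sup_le (le_sup_left.trans le_sup_right) le_sup_left
    exact this e2
  have e5 : κ2 x y := by
    refine modular h (β := θ i) (γ := θ j ⊔ θ k) (hθ i) ((hθ j).sup (hθ k)) hκ2c ?_ ?_ e3 ?_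
    · exact (inf_comm _ _).le.trans le_sup_right
    · exact sup_le (inf_le_left.trans le_sup_left) inf_le_left
    · have : κ1 ≤ θ i ⊔ κ2 := sup_le le_sup_left (le_sup_left.trans le_sup_right)
      exact this e4
  have hBu : B ≤ up θ := by
    refine le_up fun a b hab => ?_
    rcases hl a with rfl | rfl | rfl
    · rcases hl b with rfl | rfl | rfl
      · exact absurd rfl hab
      · exact inf_le_left.trans le_sup_right
      · exact inf_le_right
    · exact inf_le_left.trans le_sup_left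
    · rcases hl b with rfl | rfl | rfl
      · exact inf_le_right.trans (sup_comm _ _).le
      · exact inf_le_left.trans le_sup_right
      · exact absurd rfl hab
  have hCu : (θ j ⊔ θ k) ⊓ θ i ≤ up θ := by
    refine le_up fun a b hab => ?_
    rcases hl a with rfl | rfl | rfl
    · exact inf_le_right.trans le_sup_left
    · rcases hl b with rfl | rfl | rfl
      · exact inf_le_right.trans le_sup_right
      · exact absurd rfl hab
      · exact inf_le_left
    · rcases hl b with rfl | rfl | rfl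
      · exact inf_le_right.trans le_sup_right
      · exact inf_le_left.trans (sup_comm _ _).le
      · exact absurd rfl hab
  have h6 : κ2 ≤ (θ i ⊓ up θ) ⊔ (θ j ⊓ up θ) :=
    sup_le ((le_inf inf_le_left hBu).trans le_sup_right)
      ((le_inf inf_le_right hCu).trans le_sup_left)
  exact h6 e5

/-- The binary functions which preserve the three congruences. -/
def Pres (θ : Fin 3 → Setoid A) (g : A → A → A) : Prop :=
  ∀ i a a' c c', θ i a a' → θ i c c' → θ i (g a c) (g a' c')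

/-- The term condition. -/
def TC (θ : Fin 3 → Setoid A) (α β : Setoid A) : Prop :=
  ∀ g, Pres θ g → ∀ a b c e, α a b → β c e → low θ (g a c) (g a e) → low θ (g b c) (g b e)

include h hθ in
theorem tc_base {i j : Fin 3} (hij : i ≠ j) : TC θ (θ i) (θ j) := by
  intro g hg a b c e hab hce h1
  refine fact1 h hθ hij (hg j b b c e ((θ j).refl _) hce) ?_
  have e1 : (θ i ⊔ low θ) (g b c) (g a c) :=
    (le_sup_left : θ i ≤ _) (hg i b a c c ((θ i).symm hab) ((θ i).refl _))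
  have e2 : (θ i ⊔ low θ) (g a c) (g a e) := (le_sup_right : low θ ≤ _) h1
  have e3 : (θ i ⊔ low θ) (g a e) (g b e) :=
    (le_sup_left : θ i ≤ _) (hg i a b e e hab ((θ i).refl _))
  exact (θ i ⊔ low θ).trans e1 ((θ i ⊔ low θ).trans e2 e3)

theorem TC.sup {α α' β : Setoid A} (h1 : TC θ α β) (h2 : TC θ α' β) : TC θ (α ⊔ α') β := by
  intro g hg a b c e hab hce hl
  exact sup_ind (Q := fun a => low θ (g a c) (g a e))
    (fun y z hyz hy => h1 g hg y z c e hyz hce hy)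
    (fun y z hyz hy => h2 g hg y z c e hyz hce hy) hab hl

theorem TC.mono {α α' β : Setoid A} (h1 : TC θ α' β) (h2 : α ≤ α') : TC θ α β :=
  fun g hg a b c e hab hce hl => h1 g hg a b c e (h2 hab) hce hl

include h hθ in
theorem TC.symm {α β : Setoid A} (h1 : TC θ α β) : TC θ β α := by
  intro g hg c e a b hce hab hl
  -- `g c a ~ g c b`; show `g e a ~ g e b`
  have hlow := cg_low (m := m) (d := d) (p := p) hθ
  have k1 : ∀ j ≤ m, low θ (d j (g e a) (g c a) (g e b)) (d j (g e a) (g e a) (g e b)) := by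
    intro j hj
    have := h1 (fun s t => d j (g e a) (g t a) (g e s)) (by
      intro i s s' t t' hs ht
      exact (hθ i).cd j hj _ _ _ _ _ _ ((θ i).refl _) (hg i _ _ _ _ ht ((θ i).refl _))
        (hg i _ _ _ _ ((θ i).refl _) hs)) a b c e hab hce
    simp only [h.idem j hj] at this
    exact this ((low θ).refl _)
  have k2 : ∀ j ≤ m, low θ (d j (g e a) (g c b) (g e b)) (d j (g e a) (g e b) (g e b)) := by
    intro j hj
    have := h1 (fun s t => d j (g e a) (g t s) (g e s)) (by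
      intro i s s' t t' hs ht
      exact (hθ i).cd j hj _ _ _ _ _ _ ((θ i).refl _) (hg i _ _ _ _ ht hs)
        (hg i _ _ _ _ ((θ i).refl _) hs)) a b c e hab hce
    simp only [h.idem j hj] at this
    exact this ((low θ).refl _)
  have k3 : low θ (p (g c a) (g c b) (g e b)) (p (g e a) (g e b) (g e b)) := by
    have := h1 (fun s t => p (g t a) (g t s) (g e s)) (by
      intro i s s' t t' hs ht
      exact (hθ i).cp _ _ _ _ _ _ (hg i _ _ _ _ ht ((θ i).refl _)) (hg i _ _ _ _ ht hs)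
        (hg i _ _ _ _ ((θ i).refl _) hs)) a b c e hab hce
    simp only [h.mal] at this
    exact this ((low θ).refl _)
  have k4 : low θ (g e a) (p (g e a) (g e b) (g e b)) := by
    refine h.chain (low θ) fun j hj => ?_
    have a1 : low θ (d j (g e a) (g c a) (g e b)) (d j (g e a) (g c b) (g e b)) :=
      hlow.cd j hj _ _ _ _ _ _ ((low θ).refl _) hl ((low θ).refl _)
    exact (low θ).trans ((low θ).symm (k1 j hj)) ((low θ).trans a1 (k2 j hj))
  have k5 : low θ (p (g c a) (g c b) (g e b)) (g e b) := by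
    have := hlow.cp (g c a) (g c b) (g c b) (g c b) (g e b) (g e b) hl ((low θ).refl _)
      ((low θ).refl _)
    rwa [h.mal] at this
  exact (low θ).trans k4 ((low θ).trans ((low θ).symm k3) k5)

include h hθ in
theorem tc_up (j : Fin 3) : TC θ (up θ) (θ j) := by
  obtain ⟨i, k, hij, hkj, hik⟩ : ∃ i k : Fin 3, i ≠ j ∧ k ≠ j ∧ i ≠ k := by
    revert j
    decide
  exact ((tc_base h hθ hij).sup (tc_base h hθ hkj)).mono (up_le hik)

include h hθ in
theorem tc_up_up : TC θ (up θ) (up θ) :=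
  (((tc_up h hθ 0).symm h hθ).sup ((tc_up h hθ 1).symm h hθ)).mono (up_le (by decide))

include h hθ in
theorem quasi {x z : A} (hxz : up θ x z) : low θ x (p x z z) := by
  refine h.chain (low θ) fun j hj => ?_
  have := tc_up_up h hθ (fun s t => d j x t s) (by
    intro i s s' t t' hs ht
    exact (hθ i).cd j hj _ _ _ _ _ _ ((θ i).refl _) ht hs) x z x z hxz hxz
  simp only [h.idem j hj] at this
  exact this ((low θ).refl _)

include h hθ in
theorem P1 {i : Fin 3} {x z1 z2 y : A} (h1 : (θ i ⊓ up θ) x z1) (h2 : low θ z1 z2)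
    (h3 : (θ i ⊓ up θ) z2 y) : ∃ w, low θ x w ∧ (θ i ⊓ up θ) w y := by
  have hlow := cg_low (m := m) (d := d) (p := p) hθ
  have e1 : low θ x (p x z1 z2) :=
    (low θ).trans (quasi h hθ h1.2) (hlow.cp _ _ _ _ _ _ ((low θ).refl _) ((low θ).refl _) h2)
  have e2 : θ i (p x z1 z2) y := by
    have := (hθ i).cp x x z1 x z2 y ((θ i).refl _) ((θ i).symm h1.1) h3.1
    rwa [h.mal] at this
  have e3 : up θ (p x z1 z2) y :=
    (up θ).trans ((up θ).symm (low_le_up e1)) ((up θ).trans h1.2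
      ((up θ).trans (low_le_up h2) h3.2))
  exact ⟨_, e1, e2, e3⟩

include h hθ in
theorem P2 {i j : Fin 3} {x u y : A} (h1 : (θ i ⊓ up θ) x u) (h2 : (θ j ⊓ up θ) u y) :
    ∃ x' w, low θ x x' ∧ (θ j ⊓ up θ) x' w ∧ (θ i ⊓ up θ) w y := by
  have hup := cg_up (m := m) (d := d) (p := p) hθ
  have e1 : low θ x (p x u u) := quasi h hθ h1.2
  have e2 : θ j (p x u u) (p x u y) := (hθ j).cp _ _ _ _ _ _ ((θ j).refl _) ((θ j).refl _) h2.1
  have e2' : up θ (p x u u) (p x u y) := hup.cp _ _ _ _ _ _ ((up θ).refl _) ((up θ).refl _) h2.2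
  have e3 : θ i (p x u y) y := by
    have := (hθ i).cp x x u x y y ((θ i).refl _) ((θ i).symm h1.1) ((θ i).refl _)
    rwa [h.mal] at this
  have e3' : up θ (p x u y) y := by
    have := hup.cp x x u x y y ((up θ).refl _) ((up θ).symm h1.2) ((up θ).refl _)
    rwa [h.mal] at this
  exact ⟨_, _, e1, ⟨e2, e2'⟩, ⟨e3, e3'⟩⟩

include h hθ in
theorem square {i j : Fin 3} (hij : i ≠ j) {x y : A} (hxy : up θ x y) :
    ∃ x' u, low θ x x' ∧ (θ i ⊓ up θ) x' u ∧ (θ j ⊓ up θ) u y := by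
  refine sup_ind (Q := fun y => ∃ x' u, low θ x x' ∧ (θ i ⊓ up θ) x' u ∧ (θ j ⊓ up θ) u y)
    ?_ ?_ (fact2 h hθ hij hxy) ⟨x, x, (low θ).refl _, (θ i ⊓ up θ).refl _, (θ j ⊓ up θ).refl _⟩
  · rintro y z hyz ⟨x', u, a1, a2, a3⟩
    obtain ⟨u', w, b1, b2, b3⟩ := P2 h hθ a3 hyz
    obtain ⟨x'', c1, c2⟩ := P1 h hθ a2 b1 b2
    exact ⟨x'', w, (low θ).trans a1 c1, c2, b3⟩
  · rintro y z hyz ⟨x', u, a1, a2, a3⟩
    exact ⟨x', u, a1, a2, (θ j ⊓ up θ).trans a3 hyz⟩

/-- The rows (`i = 0`), columns (`i = 1`) and symbols (`i = 2`). -/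
def row (θ : Fin 3 → Setoid A) (i : Fin 3) : Setoid A := (θ i ⊓ up θ) ⊔ low θ

include h hθ in
theorem row_rel {i : Fin 3} {x y : A} (hxy : row θ i x y) :
    ∃ w, low θ x w ∧ (θ i ⊓ up θ) w y := by
  refine sup_ind (Q := fun y => ∃ w, low θ x w ∧ (θ i ⊓ up θ) w y)
    ?_ ?_ hxy ⟨x, (low θ).refl _, (θ i ⊓ up θ).refl _⟩
  · rintro y z hyz ⟨w, a1, a2⟩
    exact ⟨w, a1, (θ i ⊓ up θ).trans a2 hyz⟩
  · rintro y z hyz ⟨w, a1, a2⟩
    obtain ⟨w', b1, b2⟩ := P1 h hθ a2 hyz ((θ i ⊓ up θ).refl z)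
    exact ⟨w', (low θ).trans a1 b1, b2⟩

theorem row_le_up {i : Fin 3} : row θ i ≤ up θ := sup_le inf_le_right low_le_up

theorem row_le {i : Fin 3} : row θ i ≤ θ i ⊔ low θ :=
  sup_le (inf_le_left.trans le_sup_left) le_sup_right

end three

end Pool.Agent.K9h48.BM
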