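import Pool.Agent.K9h48.BM.Cg

/-!
# Congruences of algebras with idempotent cyclic operations

If `θ 0`, `θ 1`, `θ 2` are congruences with pairwise meets `⊥` and pairwise joins `⊤` of a finite algebra
with an idempotent cyclic operation, then they permute pairwise.
-/

set_option autoImplicit false

namespace Pool.Agent.K9h48.BM

open Finset Function

/-- Idempotent cyclic operations with `k + 2` arguments. -/
structure CyclicOp {A : Type*} {k : ℕ} (c : (Fin (k + 2) → A) → A) : Prop where
  idem : ∀ x, c (fun _ => x) = x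
  rot : ∀ v, c (fun l => v (l + 1)) = c v

/-- Compatible equivalence relations. -/
def CompatN {A : Type*} {n : ℕ} (c : (Fin n → A) → A) (s : Setoid A) : Prop :=
  ∀ v w, (∀ l, s (v l) (w l)) → s (c v) (c w)

section compat

variable {A : Type*} {n : ℕ} {c : (Fin n → A) → A}

theorem s_update (s : Setoid A) (v : Fin n → A) (l : Fin n) {a b : A} (hab : s a b) (l' : Fin n) :
    s (update v l a l') (update v l b l') := by
  by_cases h : l' = l
  · subst h
    rw [update_self, update_self]
    exact hab
  · rw [update_of_ne h, update_of_ne h]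

theorem compatN_sup {s t : Setoid A} (hs : CompatN c s) (ht : CompatN c t) :
    CompatN c (s ⊔ t) := by
  classical
  have h1 : ∀ (v : Fin n → A) (l : Fin n) (a b : A), (s ⊔ t) a b →
      (s ⊔ t) (c (update v l a)) (c (update v l b)) := by
    intro v l a b hab
    refine sup_ind (Q := fun b => (s ⊔ t) (c (update v l a)) (c (update v l b))) ?_ ?_ hab
      ((s ⊔ t).refl _)
    · intro y z hyz hy
      exact (s ⊔ t).trans hy ((le_sup_left : s ≤ s ⊔ t) (hs _ _ (s_update s v l hyz)))
    · intro y z hyz hy
      exact (s ⊔ t).trans hy ((le_sup_right : t ≤ s ⊔ t) (ht _ _ (s_update t v l hyz)))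
  intro v w hvw
  have h2 : ∀ T : Finset (Fin n), (s ⊔ t) (c v) (c (T.piecewise w v)) := by
    intro T
    induction T using Finset.induction_on with
    | empty =>
      rw [piecewise_empty]
    | insert l T hl ih =>
      rw [piecewise_insert]
      have h3 := h1 (T.piecewise w v) l (v l) (w l) (hvw l)
      have h4 : update (T.piecewise w v) l (v l) = T.piecewise w v := by
        rw [update_eq_self_iff, piecewise_eq_of_notMem _ _ _ hl]
      rw [h4] at h3
      exact (s ⊔ t).trans ih h3
  have h3 := h2 univ
  rwa [piecewise_univ] at h3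

end compat

section cyc

variable {A : Type*} {k : ℕ} {c : (Fin (k + 2) → A) → A} {θ : Fin 3 → Setoid A}
  (hc : CyclicOp c) (hθ : ∀ i, CompatN c (θ i))
  (hbot : ∀ i j, i ≠ j → ∀ x y, θ i x y → θ j x y → x = y)
  (htop : ∀ i j, i ≠ j → ∀ x y, (θ i ⊔ θ j) x y)

theorem two_others (j : Fin 3) : ∃ i i' : Fin 3, i ≠ j ∧ i' ≠ j ∧ i ≠ i' := by
  revert j
  decide

include hbot htop in
/-- The term condition. -/
theorem cyc_tc {g : A → A → A} (hg : Pres θ g) (j : Fin 3) {x x' : A} (hx : θ j x x') {a : A}
    (ha : g a x = g a x') (b : A) : g b x = g b x' := by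
  obtain ⟨i, i', hij, hi'j, hii'⟩ := two_others j
  have hstep : ∀ i, i ≠ j → ∀ y z, θ i y z → g y x = g y x' → g z x = g z x' := by
    intro i hij y z hyz hy
    refine hbot i j hij _ _ ?_ (hg j _ _ _ _ ((θ j).refl z) hx)
    have e1 : θ i (g z x) (g y x) := hg i _ _ _ _ ((θ i).symm hyz) ((θ i).refl x)
    have e2 : θ i (g y x') (g z x') := hg i _ _ _ _ hyz ((θ i).refl x')
    rw [hy] at e1
    exact (θ i).trans e1 e2
  exact sup_ind (Q := fun y => g y x = g y x') (hstep i hij) (hstep i' hi'j)
    (htop i i' hii' a b) ha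

include hθ hbot htop in
theorem cyc_all (j : Fin 3) {x x' : A} (hx : θ j x x') (p : Fin (k + 2)) {v : Fin (k + 2) → A}
    (hv : c (update v p x) = c (update v p x')) (w : Fin (k + 2) → A) :
    c (update w p x) = c (update w p x') := by
  classical
  have h1 : ∀ (u : Fin (k + 2) → A) (l : Fin (k + 2)) (b : A),
      c (update u p x) = c (update u p x') →
      c (update (update u l b) p x) = c (update (update u l b) p x') := by
    intro u l b hu
    have hg : Pres θ fun a z => c (update (update u l a) p z) := by
      intro i a a' z z' ha hz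
      refine hθ i _ _ fun l' => ?_
      by_cases h : l' = p
      · subst h
        rw [update_self, update_self]
        exact hz
      · rw [update_of_ne h, update_of_ne h]
        exact s_update (θ i) u l ha l'
    have h2 := cyc_tc hbot htop hg j hx (a := u l) (by
      show c (update (update u l (u l)) p x) = c (update (update u l (u l)) p x')
      rw [update_eq_self]
      exact hu) b
    exact h2
  have h2 : ∀ T : Finset (Fin (k + 2)),
      c (update (T.piecewise w v) p x) = c (update (T.piecewise w v) p x') := by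
    intro T
    induction T using Finset.induction_on with
    | empty => rw [piecewise_empty]; exact hv
    | insert l T hl ih =>
      rw [piecewise_insert]
      exact h1 _ l (w l) ih
  have h3 := h2 univ
  rwa [piecewise_univ] at h3

include hc in
theorem rot_update (v : Fin (k + 2) → A) (p : Fin (k + 2)) (x : A) :
    c (update v (p + 1) x) = c (update (fun l => v (l + 1)) p x) := by
  rw [← hc.rot]
  congr 1
  funext l
  by_cases h : l = p
  · subst h
    rw [update_self, update_self]
  · rw [update_of_ne h, update_of_ne]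
    exact fun h' => h (add_right_cancel h')

include hc hθ hbot htop in
theorem cyc_inj (j : Fin 3) {x x' : A} (hx : θ j x x') {v : Fin (k + 2) → A}
    (hv : c (update v 0 x) = c (update v 0 x')) : x = x' := by
  classical
  have h2 : ∀ (l : Fin (k + 2)) (w : Fin (k + 2) → A), c (update w l x) = c (update w l x') := by
    intro l
    induction l using Fin.induction with
    | zero => exact fun w => cyc_all hθ hbot htop j hx 0 hv w
    | succ l ih =>
      intro w
      rw [← Fin.coeSucc_eq_succ, rot_update hc, rot_update hc]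
      exact ih _
  have h3 : ∀ T : Finset (Fin (k + 2)),
      c (fun _ => x) = c (T.piecewise (fun _ => x') (fun _ => x)) := by
    intro T
    induction T using Finset.induction_on with
    | empty => rw [piecewise_empty]
    | insert l T hl ih =>
      rw [piecewise_insert, ih, ← h2 l]
      congr 1
      rw [eq_comm, update_eq_self_iff, piecewise_eq_of_notMem _ _ _ hl]
  have h4 := h3 univ
  rw [piecewise_univ, hc.idem, hc.idem] at h4
  exact h4

/-- `L n x y`: iterate `x ↦ c (x, y, …, y)`. -/
def LL (c : (Fin (k + 2) → A) → A) (n : ℕ) (x y : A) : A :=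
  (fun z => c (update (fun _ => y) 0 z))^[n] x

theorem LL_succ (n : ℕ) (x y : A) :
    LL c (n + 1) x y = c (update (fun _ => y) 0 (LL c n x y)) :=
  iterate_succ_apply' _ _ _

include hc in
theorem LL_self (n : ℕ) (y : A) : LL c n y y = y := by
  induction n with
  | zero => rfl
  | succ n ih =>
    rw [LL_succ, ih]
    have h : update (fun _ : Fin (k + 2) => y) 0 y = fun _ => y := by
      rw [update_eq_self_iff]
    rw [h, hc.idem]

include hθ in
theorem LL_compat (i : Fin 3) (n : ℕ) {x x' y y' : A} (hx : θ i x x') (hy : θ i y y') :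
    θ i (LL c n x y) (LL c n x' y') := by
  induction n with
  | zero => exact hx
  | succ n ih =>
    rw [LL_succ, LL_succ]
    refine hθ i _ _ fun l => ?_
    by_cases h : l = 0
    · subst h
      rw [update_self, update_self]
      exact ih
    · rw [update_of_ne h, update_of_ne h]
      exact hy

include hc hθ hbot htop in
theorem LL_period [Finite A] : ∃ M, ∀ j x y, θ j x y → LL c (M + 1) x y = x := by
  classical
  have := Fintype.ofFinite A
  let Ω := {q : A × A × Fin 3 // θ q.2.2 q.1 q.2.1}
  let F : Ω → Ω := fun q => ⟨(c (update (fun _ => q.1.2.1) 0 q.1.1), q.1.2.1, q.1.2.2), by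
    have h := LL_compat (c := c) hθ q.1.2.2 1 q.2 ((θ q.1.2.2).refl q.1.2.1)
    rw [LL_self hc] at h
    exact h⟩
  have hF : Injective F := by
    intro q q' hqq
    have h1 : ((c (update (fun _ => q.1.2.1) 0 q.1.1), q.1.2.1, q.1.2.2) : A × A × Fin 3) =
        (c (update (fun _ => q'.1.2.1) 0 q'.1.1), q'.1.2.1, q'.1.2.2) := congrArg Subtype.val hqq
    rw [Prod.mk.injEq, Prod.mk.injEq] at h1
    obtain ⟨h2, h3, h4⟩ := h1
    have h5 := q.2
    have h6 := q'.2
    rw [← h3, ← h4] at h6
    rw [← h3] at h2
    have h7 : q.1.1 = q'.1.1 :=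
      cyc_inj hc hθ hbot htop q.1.2.2 ((θ _).trans h5 ((θ _).symm h6)) h2
    exact Subtype.ext (Prod.ext h7 (Prod.ext h3 h4))
  have hF' : Bijective F := Finite.injective_iff_bijective.1 hF
  let σ : Equiv.Perm Ω := Equiv.ofBijective F hF'
  have hσ : ∀ q, σ q = F q := fun q => rfl
  obtain ⟨M, hM⟩ : ∃ M, M + 1 = orderOf σ := by
    have h1 : 0 < orderOf σ := orderOf_pos σ
    exact ⟨orderOf σ - 1, by omega⟩
  refine ⟨M, fun j x y hxy => ?_⟩
  have h1 : ∀ n, ((σ ^ n) ⟨(x, y, j), hxy⟩).1 = (LL c n x y, y, j) := by
    intro n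
    induction n with
    | zero => rfl
    | succ n ih =>
      rw [pow_succ', Equiv.Perm.mul_apply, hσ]
      show (c (update (fun _ => ((σ ^ n) ⟨(x, y, j), hxy⟩).1.2.1) 0 ((σ ^ n) ⟨(x, y, j), hxy⟩).1.1),
        ((σ ^ n) ⟨(x, y, j), hxy⟩).1.2.1, ((σ ^ n) ⟨(x, y, j), hxy⟩).1.2.2) = _
      rw [ih, LL_succ]
  have h2 := h1 (M + 1)
  rw [hM, pow_orderOf_eq_one] at h2
  have h3 := congrArg Prod.fst h2
  rw [hM]
  exact h3.symm

include hc hθ hbot htop in
/-- The congruences permute. -/
theorem cyc_permute [Finite A] {i j : Fin 3} {x u y : A} (h1 : θ i x u) (h2 : θ j u y) :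
    ∃ w, θ j x w ∧ θ i w y := by
  classical
  obtain ⟨M, hM⟩ := LL_period hc hθ hbot htop
  let t : A → A → A → A := fun x y z =>
    c (update (update (fun _ => y) 0 (LL c M x y)) (Fin.last (k + 1)) (LL c M z y))
  have hne : (Fin.last (k + 1) : Fin (k + 2)) ≠ 0 := by
    rw [Ne, Fin.ext_iff]
    simp
  have ht1 : ∀ j x y, θ j x y → t x y y = x := by
    intro j x y hxy
    have h3 : update (update (fun _ : Fin (k + 2) => y) 0 (LL c M x y)) (Fin.last (k + 1)) y =
        update (fun _ => y) 0 (LL c M x y) := by
      rw [update_eq_self_iff, update_of_ne hne]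
    show c (update (update (fun _ => y) 0 (LL c M x y)) (Fin.last (k + 1)) (LL c M y y)) = x
    rw [LL_self hc, h3, ← LL_succ (c := c)]
    exact hM j x y hxy
  have ht2 : ∀ j y z, θ j z y → t y y z = z := by
    intro j y z hzy
    have h3 : update (fun _ : Fin (k + 2) => y) 0 y = fun _ => y := by
      rw [update_eq_self_iff]
    have h4 : update (fun _ : Fin (k + 2) => y) (Fin.last (k + 1)) (LL c M z y) =
        fun l => update (fun _ : Fin (k + 2) => y) 0 (LL c M z y) (l + 1) := by
      funext l
      by_cases h : l = Fin.last (k + 1)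
      · subst h
        rw [update_self, Fin.last_add_one, update_self]
      · rw [update_of_ne h, update_of_ne]
        intro h'
        refine h (add_right_cancel (b := 1) ?_)
        rw [h', Fin.last_add_one]
    show c (update (update (fun _ => y) 0 (LL c M y y)) (Fin.last (k + 1)) (LL c M z y)) = z
    rw [LL_self hc, h3, h4, hc.rot, ← LL_succ (c := c)]
    exact hM j z y hzy
  have ht : ∀ i x x' y y' z z', θ i x x' → θ i y y' → θ i z z' → θ i (t x y z) (t x' y' z') := by
    intro i x x' y y' z z' hx hy hz
    refine hθ i _ _ fun l => ?_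
    by_cases h : l = Fin.last (k + 1)
    · subst h
      rw [update_self, update_self]
      exact LL_compat hθ i M hz hy
    · rw [update_of_ne h, update_of_ne h]
      by_cases h' : l = 0
      · subst h'
        rw [update_self, update_self]
        exact LL_compat hθ i M hx hy
      · rw [update_of_ne h', update_of_ne h']
        exact hy
  refine ⟨t x u y, ?_, ?_⟩
  · have h3 := ht j x x u u u y ((θ j).refl _) ((θ j).refl _) h2
    rwa [ht1 i x u h1] at h3
  · have h3 := ht i x u u u y y h1 ((θ i).refl _) ((θ i).refl _)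
    rwa [ht2 j u y ((θ j).symm h2)] at h3

include hc hθ hbot htop in
/-- The classes form a complete Latin square. -/
theorem cyc_square [Finite A] {i j : Fin 3} (hij : i ≠ j) (x y : A) :
    ∃ u, θ i x u ∧ θ j u y := by
  refine sup_ind (Q := fun y => ∃ u, θ i x u ∧ θ j u y) ?_ ?_ (htop i j hij x y)
    ⟨x, (θ i).refl _, (θ j).refl _⟩
  · rintro y z hyz ⟨u, h1, h2⟩
    obtain ⟨w, h3, h4⟩ := cyc_permute hc hθ hbot htop h2 hyz
    exact ⟨w, (θ i).trans h1 h3, h4⟩
  · rintro y z hyz ⟨u, h1, h2⟩
    exact ⟨u, h1, (θ j).trans h2 hyz⟩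

end cyc

end Pool.Agent.K9h48.BM
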