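import Pool.Agent.K9h48.BM.Lat
import Pool.Agent.K9h48.BM.Cyc

/-!
# The bound for three coordinates and cyclic operations
-/

set_option autoImplicit false

universe u

namespace Pool.Agent.K9h48.BM

open Finset Function Pool.Agent.R181.Maj Pool.Agent.R181.LW

theorem sum_fiber_image {A Q Y : Type*} [Fintype A] [Fintype Q] [DecidableEq Q] [DecidableEq Y]
    (f : A → Q) (g : A → Y) (h : ∀ x y, g x = g y → f x = f y) :
    ∑ q, #((univ.filter fun x => f x = q).image g) ≤ #((univ : Finset A).image g) := by
  rw [← card_biUnion]
  · refine card_le_card fun a ha => ?_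
    rw [mem_biUnion] at ha
    obtain ⟨q, -, hq⟩ := ha
    obtain ⟨x, -, rfl⟩ := mem_image.1 hq
    exact mem_image_of_mem _ (mem_univ _)
  · intro q _ q' _ hqq
    rw [Function.onFun, Finset.disjoint_left]
    intro a h1 h2
    obtain ⟨x, hx, hxa⟩ := mem_image.1 h1
    obtain ⟨y, hy, hya⟩ := mem_image.1 h2
    refine hqq ?_
    rw [← (mem_filter.1 hx).2, ← (mem_filter.1 hy).2]
    exact h x y (hxa.trans hya.symm)

theorem prod_three {i j k : Fin 3} (hij : i ≠ j) (hik : i ≠ k) (hjk : j ≠ k)
    (hl : ∀ l, l = i ∨ l = j ∨ l = k) (a : Fin 3 → ℕ) : ∏ t, a t = a i * a j * a k := by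
  have h : (univ : Finset (Fin 3)) = {i, j, k} := by
    ext l
    simp [hl l]
  rw [h, prod_insert (by simp [hij, hik]), prod_insert (by simp [hjk]), prod_singleton, mul_assoc]

theorem cyc_bound {k e : ℕ} (he : 2 ≤ e) {X : Fin 3 → Type u} [∀ i, DecidableEq (X i)] (N : ℕ) :
    ∀ (A : Type u) [Fintype A] (π : ∀ i, A → X i) (c : (Fin (k + 2) → A) → A),
    Fintype.card A ≤ N → CyclicOp c → (∀ i, CompatN c (th π i)) →
    (∀ i j, i ≠ j → ∀ x y, π i x = π i y → π j x = π j y → x = y) →
    (∀ T : Finset A, #T = e → e + 3 < spn π T) →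
    Fintype.card A ^ 2 ≤ ((e - 1) ^ 2) ^ 2 * ∏ i, #((univ : Finset A).image (π i)) := by
  induction N with
  | zero =>
    intro A _ π c hN _ _ _ _
    rw [Nat.le_zero.1 hN]
    simp
  | succ N ih =>
    intro A _ π c hN hc hθ hb hs
    classical
    by_cases hall : ∀ i j, i ≠ j → ∀ x y, (th π i ⊔ th π j) x y
    · rcases isEmpty_or_nonempty A with hA | hA
      · simp
      have h1 : Fintype.card A ≤ (e - 1) ^ 2 :=
        lat_small hb (fun i j hij x y => cyc_square hc hθ hb hall hij x y) hs he
      have h2 : 1 ≤ ∏ i, #((univ : Finset A).image (π i)) :=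
        Nat.succ_le_of_lt (prod_pos fun i _ => card_pos.2 (univ_nonempty.image _))
      calc Fintype.card A ^ 2 ≤ ((e - 1) ^ 2) ^ 2 := Nat.pow_le_pow_left h1 2
        _ = ((e - 1) ^ 2) ^ 2 * 1 := (mul_one _).symm
        _ ≤ _ := Nat.mul_le_mul_left _ h2
    · push Not at hall
      obtain ⟨i, j, hij, x0, y0, hxy⟩ := hall
      obtain ⟨l, hli, hlj, hl⟩ := third i j hij
      set ψ : Setoid A := th π i ⊔ th π j with hψ
      have hψc : CompatN c ψ := compatN_sup (hθ i) (hθ j)
      let f : A → Quotient ψ := fun x => Quotient.mk ψ x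
      have hf : ∀ x y, f x = f y ↔ ψ x y := fun x y => Quotient.eq
      have hfi : ∀ x y, π i x = π i y → f x = f y := fun x y h =>
        (hf x y).2 ((le_sup_left : th π i ≤ ψ) h)
      have hfj : ∀ x y, π j x = π j y → f x = f y := fun x y h =>
        (hf x y).2 ((le_sup_right : th π j ≤ ψ) h)
      set K : ℕ := ((e - 1) ^ 2) ^ 2 with hK
      let a : Fin 3 → Quotient ψ → ℕ := fun t q => #((univ.filter fun x => f x = q).image (π t))
      have hcl : ∀ (q : Quotient ψ) (v : Fin (k + 2) → {x : A // f x = q}),
          f (c fun l => (v l).1) = q := by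
        intro q v
        have h1 : ψ (c fun l => (v l).1) (v 0).1 := by
          have h2 := hψc (fun l => (v l).1) (fun _ => (v 0).1) (fun l =>
            (hf _ _).1 ((v l).2.trans (v 0).2.symm))
          rwa [hc.idem] at h2
        rw [(hf _ _).2 h1]
        exact (v 0).2
      have hq : ∀ q : Quotient ψ, #(univ.filter fun x => f x = q) ^ 2 ≤ K * ∏ t, a t q := by
        intro q
        let B := {x : A // f x = q}
        let π' : ∀ t, B → X t := fun t x => π t x.1
        let c' : (Fin (k + 2) → B) → B := fun v => ⟨c fun l => (v l).1, hcl q v⟩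
        have hcard : Fintype.card B < Fintype.card A := by
          by_cases h0 : f x0 = q
          · refine Fintype.card_subtype_lt (x := y0) fun h1 => hxy ?_
            exact (hf _ _).1 (h0.trans h1.symm)
          · exact Fintype.card_subtype_lt (x := x0) h0
        have h1 := ih B π' c' (by omega) ⟨fun x => Subtype.ext (hc.idem x.1), fun v =>
            Subtype.ext (hc.rot fun l => (v l).1)⟩ (fun t v w hvw => hθ t _ _ hvw)
          (fun i j hij x y h1 h2 => Subtype.ext (hb i j hij _ _ h1 h2)) (by
            intro T hT
            have h2 := hs (T.map (Embedding.subtype _)) (by rw [card_map, hT])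
            have h3 : spn π (T.map (Embedding.subtype _)) = spn π' T := by
              unfold spn
              refine sum_congr rfl fun t _ => ?_
              rw [map_eq_image, image_image]
              rfl
            rwa [h3] at h2)
        have h2 : Fintype.card B = #(univ.filter fun x => f x = q) := Fintype.card_subtype _
        rw [h2] at h1
        refine h1.trans (Nat.mul_le_mul_left _ (prod_le_prod' fun t _ => card_le_card ?_))
        intro z hz
        obtain ⟨x, -, rfl⟩ := mem_image.1 hz
        exact mem_image.2 ⟨x.1, mem_filter.2 ⟨mem_univ _, x.2⟩, rfl⟩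
      have hal : ∀ q, a l q ≤ #((univ : Finset A).image (π l)) := fun q =>
        card_le_card (image_subset_image (filter_subset _ _))
      have hcs : (∑ q, #(univ.filter fun x => f x = q)) ^ 2 ≤
          (∑ q, K * #((univ : Finset A).image (π l)) * a i q) * ∑ q, a j q := by
        refine sum_sq_le_sum_mul_sum_of_sq_le_mul univ (fun q _ => Nat.zero_le _)
          (fun q _ => Nat.zero_le _) fun q _ => ?_
        refine (hq q).trans ?_
        rw [prod_three hij hli.symm hlj.symm hl]
        calc K * (a i q * a j q * a l q) = K * a i q * a j q * a l q := by ring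
          _ ≤ K * a i q * a j q * #((univ : Finset A).image (π l)) :=
            Nat.mul_le_mul_left _ (hal q)
          _ = K * #((univ : Finset A).image (π l)) * a i q * a j q := by ring
      have hsum : Fintype.card A = ∑ q, #(univ.filter fun x => f x = q) := by
        rw [← card_univ]
        exact card_eq_sum_card_fiberwise fun x _ => mem_univ _
      rw [hsum]
      refine hcs.trans ?_
      rw [← mul_sum, prod_three hij hli.symm hlj.symm hl]
      calc K * #((univ : Finset A).image (π l)) * (∑ q, a i q) * ∑ q, a j q
          ≤ K * #((univ : Finset A).image (π l)) * #((univ : Finset A).image (π i)) *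
            #((univ : Finset A).image (π j)) :=
            Nat.mul_le_mul (Nat.mul_le_mul_left _ (sum_fiber_image f (π i) hfi))
              (sum_fiber_image f (π j) hfj)
        _ = _ := by ring

end Pool.Agent.K9h48.BM
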