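import Pool.Agent.K9h48.BM.Sq

/-!
# Hypergraphs which are unions of relations closed under Gumm operations
-/

set_option autoImplicit false

namespace Pool.Agent.K9h48.BM

open Finset Pool.Agent.R181.Maj Pool.Agent.R181.LW

/-- `F` is a relation between `r` pairwise disjoint sets of vertices, closed under componentwise
application of some Gumm operations on these sets. -/
def ModularPiece {V : Type} (r : ℕ) (F : Set (Finset V)) : Prop :=
  ∃ (X : Fin r → Type) (m : ℕ) (d : ℕ → ∀ i, X i → X i → X i → X i)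
    (p : ∀ i, X i → X i → X i → X i) (f : (Σ i, X i) → V) (E : Set (∀ i, X i)),
    (∀ i, Gumm m (fun j => d j i) (p i)) ∧ Function.Injective f ∧
    (∀ j ≤ m, ∀ x ∈ E, ∀ y ∈ E, ∀ z ∈ E, (fun i => d j i (x i) (y i) (z i)) ∈ E) ∧
    (∀ x ∈ E, ∀ y ∈ E, ∀ z ∈ E, (fun i => p i (x i) (y i) (z i)) ∈ E) ∧ F = edge f '' E

/-- Three small coordinates. -/
theorem three_smallest (k : ℕ) (a : Fin (k + 3) → ℕ) : ∃ σ : Fin 3 → Fin (k + 3),
    Function.Injective σ ∧ (k + 3) * ∑ t, a (σ t) ≤ 3 * ∑ i, a i := by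
  set s := Tuple.sort a with hs
  have hm : Monotone (a ∘ s) := Tuple.monotone_sort a
  have h3k : 3 ≤ k + 3 := by omega
  refine ⟨fun t => s (Fin.castLE h3k t), s.injective.comp (Fin.castLE_injective h3k), ?_⟩
  rw [← Equiv.sum_comp s a, Fin.sum_univ_three]
  set b : Fin (k + 3) → ℕ := fun i => a (s i) with hb
  have h01 : b 0 ≤ b 1 := hm (by rw [Fin.le_def]; simp)
  have h12 : b 1 ≤ b 2 := hm (by
    rw [Fin.le_def]
    have h1 : ((1 : Fin (k + 3)) : ℕ) = 1 := Fin.val_one _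
    have h2 : ((2 : Fin (k + 3)) : ℕ) = 2 := Fin.val_two
    omega)
  have e0 : a (s (Fin.castLE h3k 0)) = b 0 := rfl
  have e1 : a (s (Fin.castLE h3k 1)) = b 1 := by
    rw [hb]
    congr 2
  have e2 : a (s (Fin.castLE h3k 2)) = b 2 := by
    rw [hb]
    congr 2
  rw [e0, e1, e2]
  have e3 : ∑ i, b i = b 0 + (b 1 + (b 2 + ∑ i : Fin k, b i.succ.succ.succ)) := by
    rw [Fin.sum_univ_succ, Fin.sum_univ_succ, Fin.sum_univ_succ]
    rfl
  have e4 : k * b 2 ≤ ∑ i : Fin k, b i.succ.succ.succ := by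
    have h1 : ∀ i ∈ (univ : Finset (Fin k)), b 2 ≤ b i.succ.succ.succ := by
      intro i _
      refine hm ?_
      rw [Fin.le_def]
      simp only [Fin.val_succ]
      have : ((2 : Fin (k + 3)) : ℕ) = 2 := Fin.val_two
      omega
    have := card_nsmul_le_sum univ (fun i : Fin k => b i.succ.succ.succ) (b 2) h1
    simpa using this
  rw [e3]
  nlinarith [Nat.zero_le k]

theorem piece_bound {V : Type} [Fintype V] {r e : ℕ} (hr : 3 ≤ r) (he : 2 ≤ e)
    {H : Set (Finset V)} (hH : SpanMore H e ((r - 2) * e + 3)) {F : Set (Finset V)}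
    (hF : ModularPiece r F) (hFH : F ⊆ H) :
    r ^ 3 * F.ncard ^ 2 ≤ ((e - 1) ^ 2) ^ 2 * Fintype.card V ^ 3 := by
  classical
  obtain ⟨k, rfl⟩ : ∃ k, r = k + 3 := ⟨r - 3, by omega⟩
  obtain ⟨X, m, d, p, f, E, hg, hf, hd, hp, rfl⟩ := hF
  have hfi : ∀ i, Function.Injective fun a : X i => f ⟨i, a⟩ := fun i a b hab =>
    eq_of_heq (Sigma.mk.inj (hf hab)).2
  haveI : ∀ i, Finite (X i) := fun i => Finite.of_injective _ (hfi i)
  letI : ∀ i, Fintype (X i) := fun i => Fintype.ofFinite (X i)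
  obtain ⟨σ, hσ, hσs⟩ := three_smallest k fun i => Fintype.card (X i)
  let A := {x // x ∈ E}
  let π : ∀ t : Fin 3, A → X (σ t) := fun t x => x.1 (σ t)
  let d' : ℕ → A → A → A → A := fun j x y z =>
    if h : j ≤ m then ⟨fun i => d j i (x.1 i) (y.1 i) (z.1 i), hd j h _ x.2 _ y.2 _ z.2⟩ else x
  let p' : A → A → A → A := fun x y z =>
    ⟨fun i => p i (x.1 i) (y.1 i) (z.1 i), hp _ x.2 _ y.2 _ z.2⟩
  have hd' : ∀ j ≤ m, ∀ x y z : A, (d' j x y z).1 = fun i => d j i (x.1 i) (y.1 i) (z.1 i) := by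
    intro j hj x y z
    simp only [d', dif_pos hj]
  have hG : Gumm m d' p' := by
    refine ⟨fun x y z => ?_, fun j hj x y => ?_, fun j hj he x z => ?_, fun j hj ho x z => ?_,
      fun x z => ?_, fun x z => ?_⟩
    · refine Subtype.ext ?_
      rw [hd' 0 (Nat.zero_le _)]
      exact funext fun i => (hg i).zero _ _ _
    · refine Subtype.ext ?_
      rw [hd' j hj]
      exact funext fun i => (hg i).idem j hj _ _
    · refine Subtype.ext ?_
      rw [hd' j hj.le, hd' (j + 1) hj]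
      exact funext fun i => (hg i).even j hj he _ _
    · refine Subtype.ext ?_
      rw [hd' j hj.le, hd' (j + 1) hj]
      exact funext fun i => (hg i).odd j hj ho _ _
    · refine Subtype.ext ?_
      rw [hd' m le_rfl]
      exact funext fun i => (hg i).last _ _
    · exact Subtype.ext (funext fun i => (hg i).mal _ _)
  have hθ : ∀ t, Cg m d' p' (th π t) := by
    intro t
    refine ⟨fun j hj a a' b b' c c' h1 h2 h3 => ?_, fun a a' b b' c c' h1 h2 h3 => ?_⟩
    · show (d' j a b c).1 (σ t) = (d' j a' b' c').1 (σ t)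
      rw [hd' j hj, hd' j hj]
      have e1 : a.1 (σ t) = a'.1 (σ t) := h1
      have e2 : b.1 (σ t) = b'.1 (σ t) := h2
      have e3 : c.1 (σ t) = c'.1 (σ t) := h3
      show d j (σ t) _ _ _ = d j (σ t) _ _ _
      rw [e1, e2, e3]
    · have e1 : a.1 (σ t) = a'.1 (σ t) := h1
      have e2 : b.1 (σ t) = b'.1 (σ t) := h2
      have e3 : c.1 (σ t) = c'.1 (σ t) := h3
      show p (σ t) _ _ _ = p (σ t) _ _ _
      rw [e1, e2, e3]
  have hs : ∀ T : Finset A, #T = e → e + 3 < spn π T := by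
    intro T hTe
    set T' : Finset (∀ i, X i) := T.map (Function.Embedding.subtype _) with hT'
    have hT'e : #T' = e := by rw [hT', card_map, hTe]
    have h1 := hH (T'.image (edge f)) (by
      rw [coe_image]
      intro a ha
      obtain ⟨x, hx, rfl⟩ := ha
      obtain ⟨y, -, rfl⟩ := mem_map.1 (mem_coe.1 hx)
      exact hFH ⟨y.1, y.2, rfl⟩)
      (by rw [card_image_of_injective _ (edge_injective hf), hT'e])
    rw [union_eq hf] at h1
    set a : Fin (k + 3) → ℕ := fun i => #(T'.image fun x => x i) with ha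
    have h2 : ∀ t, a (σ t) = #(T.image (π t)) := by
      intro t
      rw [ha]
      show #((T.map (Function.Embedding.subtype _)).image fun x => x (σ t)) = _
      rw [map_eq_image, image_image]
      rfl
    have h3 : ∑ i, a i ≤ spn π T + k * e := by
      rw [← sum_add_sum_compl (univ.image σ) a, sum_image (fun x _ y _ hxy => hσ hxy)]
      refine Nat.add_le_add (le_of_eq (sum_congr rfl fun t _ => h2 t)) ?_
      have h4 : #(univ.image σ)ᶜ = k := by
        rw [card_compl, card_image_of_injective _ hσ, card_univ, Fintype.card_fin,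
          Fintype.card_fin]
        omega
      have h5 := sum_le_card_nsmul (univ.image σ)ᶜ a e (fun i _ => by
        rw [ha]
        exact card_image_le.trans hT'e.le)
      rwa [h4, smul_eq_mul] at h5
    have h6 : k + 3 - 2 = k + 1 := by omega
    rw [h6] at h1
    have h7 : (k + 1) * e = k * e + e := by ring
    have h8 : (k + 1) * e + 3 < ∑ i, a i := h1
    omega
  have hb := three_bound hG hθ he hs
  have hcard : (edge f '' E).ncard = Fintype.card A := by
    rw [Set.ncard_image_of_injective _ (edge_injective hf), ← Nat.card_coe_set_eq,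
      Nat.card_eq_fintype_card]
  rw [hcard]
  have h3 : ∏ t, #((univ : Finset A).image (π t)) ≤ ∏ t, Fintype.card (X (σ t)) :=
    prod_le_prod' fun i _ => card_le_univ _
  have h4 := amgm (univ : Finset (Fin 3)) univ_nonempty fun t => Fintype.card (X (σ t))
  rw [card_univ, Fintype.card_fin] at h4
  have h5 : ∑ i, Fintype.card (X i) ≤ Fintype.card V := by
    rw [← Fintype.card_sigma]
    exact Fintype.card_le_of_injective f hf
  have h6 : (k + 3) ^ 3 * ∏ t, Fintype.card (X (σ t)) ≤ Fintype.card V ^ 3 := by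
    have h7 : ((k + 3) * ∑ t, Fintype.card (X (σ t))) ^ 3 ≤ (3 * Fintype.card V) ^ 3 :=
      Nat.pow_le_pow_left (hσs.trans (Nat.mul_le_mul_left _ h5)) 3
    have h8 : (k + 3) ^ 3 * (3 ^ 3 * ∏ t, Fintype.card (X (σ t))) ≤
        (k + 3) ^ 3 * (∑ t, Fintype.card (X (σ t))) ^ 3 := Nat.mul_le_mul_left _ h4
    rw [mul_pow, mul_pow] at h7
    have h9 : 3 ^ 3 * ((k + 3) ^ 3 * ∏ t, Fintype.card (X (σ t))) ≤
        3 ^ 3 * Fintype.card V ^ 3 := by
      calc 3 ^ 3 * ((k + 3) ^ 3 * ∏ t, Fintype.card (X (σ t)))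
          = (k + 3) ^ 3 * (3 ^ 3 * ∏ t, Fintype.card (X (σ t))) := by ring
        _ ≤ _ := h8.trans h7
    exact Nat.le_of_mul_le_mul_left h9 (by norm_num)
  calc (k + 3) ^ 3 * Fintype.card A ^ 2
      ≤ (k + 3) ^ 3 * (((e - 1) ^ 2) ^ 2 * ∏ t, Fintype.card (X (σ t))) :=
        Nat.mul_le_mul_left _ (hb.trans (Nat.mul_le_mul_left _ h3))
    _ = ((e - 1) ^ 2) ^ 2 * ((k + 3) ^ 3 * ∏ t, Fintype.card (X (σ t))) := by ring
    _ ≤ _ := Nat.mul_le_mul_left _ h6

theorem union_bound (r e L : ℕ) (hr : 3 ≤ r) (he : 2 ≤ e) (V : Type) [Fintype V]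
    (H : Set (Finset V)) (F : Fin L → Set (Finset V)) (hF : ∀ i, ModularPiece r (F i))
    (hH : H = ⋃ i, F i) (hsp : SpanMore H e ((r - 2) * e + 3)) :
    (H.ncard : ℝ) ≤ (e - 1) ^ 2 * L * ((Fintype.card V : ℝ) / r) ^ (3 / 2 : ℝ) := by
  classical
  have he1 : (0 : ℝ) ≤ (e : ℝ) - 1 := by
    have : (2 : ℝ) ≤ e := by exact_mod_cast he
    linarith
  have hr3 : (3 : ℝ) ≤ r := by exact_mod_cast hr
  have h1 : ∀ i, ((F i).ncard : ℝ) ≤
      (e - 1) ^ 2 * ((Fintype.card V : ℝ) / r) ^ (3 / 2 : ℝ) := by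
    intro i
    have h2 := piece_bound (r := r) (e := e) hr he (H := H) hsp (hF i)
      (by rw [hH]; exact Set.subset_iUnion F i)
    refine le_of_pow_le_pow_left₀ (n := 2) (by norm_num) (by positivity) ?_
    have h3 : (((Fintype.card V : ℝ) / r) ^ (3 / 2 : ℝ)) ^ 2 =
        ((Fintype.card V : ℝ) / r) ^ 3 := by
      rw [← Real.rpow_natCast, ← Real.rpow_mul (by positivity), ← Real.rpow_natCast _ 3]
      norm_num
    rw [mul_pow, h3]
    have h4 : ((r ^ 3 * (F i).ncard ^ 2 : ℕ) : ℝ) ≤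
        ((((e - 1) ^ 2) ^ 2 * Fintype.card V ^ 3 : ℕ) : ℝ) := by exact_mod_cast h2
    rw [Nat.cast_mul, Nat.cast_mul, Nat.cast_pow, Nat.cast_pow, Nat.cast_pow, Nat.cast_pow,
      Nat.cast_pow, Nat.cast_sub (by omega), Nat.cast_one] at h4
    rw [div_pow, ← mul_div_assoc, le_div_iff₀ (by positivity)]
    linarith
  have h6 : H.ncard ≤ ∑ i : Fin L, (F i).ncard := by
    rw [hH]
    exact Set.ncard_iUnion_le_of_fintype F
  calc (H.ncard : ℝ) ≤ ((∑ i : Fin L, (F i).ncard : ℕ) : ℝ) := by exact_mod_cast h6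
    _ = ∑ i : Fin L, ((F i).ncard : ℝ) := by push_cast; rfl
    _ ≤ ∑ _i : Fin L, (e - 1) ^ 2 * ((Fintype.card V : ℝ) / r) ^ (3 / 2 : ℝ) :=
        sum_le_sum fun i _ => h1 i
    _ = (e - 1) ^ 2 * L * ((Fintype.card V : ℝ) / r) ^ (3 / 2 : ℝ) := by
        rw [sum_const, card_univ, Fintype.card_fin, nsmul_eq_mul]; ring

end Pool.Agent.K9h48.BM
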