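import Pool.Agent.K9h48.BM.CycBound
import Pool.Agent.K9h48.BM.Pieces

/-!
# Linear hypergraphs which are unions of relations closed under idempotent cyclic operations
-/

set_option autoImplicit false

namespace Pool.Agent.K9h48.BM

open Finset Pool.Agent.R181.Maj Pool.Agent.R181.LW

/-- `F` is a relation between `r` pairwise disjoint sets of vertices, closed under componentwise
application of some idempotent cyclic operations on these sets, with the same number of arguments. -/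
def CyclicPiece {V : Type} (r : ℕ) (F : Set (Finset V)) : Prop :=
  ∃ (X : Fin r → Type) (k : ℕ) (c : ∀ i, (Fin (k + 2) → X i) → X i) (f : (Σ i, X i) → V)
    (E : Set (∀ i, X i)),
    (∀ i, CyclicOp (c i)) ∧ Function.Injective f ∧
    (∀ v : Fin (k + 2) → ∀ i, X i, (∀ l, v l ∈ E) → (fun i => c i fun l => v l i) ∈ E) ∧
    F = edge f '' E

/-- Two edges have at most one common vertex. -/
def Linear {V : Type} (F : Set (Finset V)) : Prop :=
  ∀ a ∈ F, ∀ b ∈ F, a ≠ b → ((a : Set V) ∩ b).Subsingleton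

theorem mem_edge {V : Type} [DecidableEq V] {r : ℕ} {X : Fin r → Type} {f : (Σ i, X i) → V}
    (x : ∀ i, X i) (i : Fin r) : f ⟨i, x i⟩ ∈ edge f x := by
  classical
  unfold edge
  simp

theorem cyc_piece_bound {V : Type} [Fintype V] {r e : ℕ} (hr : 3 ≤ r) (he : 2 ≤ e)
    {H : Set (Finset V)} (hH : SpanMore H e ((r - 2) * e + 3)) {F : Set (Finset V)}
    (hF : CyclicPiece r F) (hlin : Linear F) (hFH : F ⊆ H) :
    r ^ 3 * F.ncard ^ 2 ≤ ((e - 1) ^ 2) ^ 2 * Fintype.card V ^ 3 := by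
  classical
  obtain ⟨k, rfl⟩ : ∃ k, r = k + 3 := ⟨r - 3, by omega⟩
  obtain ⟨X, m, c, f, E, hc, hf, hE, rfl⟩ := hF
  have hfi : ∀ i, Function.Injective fun a : X i => f ⟨i, a⟩ := fun i a b hab =>
    eq_of_heq (Sigma.mk.inj (hf hab)).2
  have : ∀ i, Finite (X i) := fun i => Finite.of_injective _ (hfi i)
  let _ : ∀ i, Fintype (X i) := fun i => Fintype.ofFinite (X i)
  obtain ⟨σ, hσ, hσs⟩ := three_smallest k fun i => Fintype.card (X i)
  let A := {x // x ∈ E}
  let π : ∀ t : Fin 3, A → X (σ t) := fun t x => x.1 (σ t)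
  let c' : (Fin (m + 2) → A) → A := fun v =>
    ⟨fun i => c i fun l => (v l).1 i, hE (fun l => (v l).1) fun l => (v l).2⟩
  have hc' : CyclicOp c' := ⟨fun x => Subtype.ext (funext fun i => (hc i).idem _),
    fun v => Subtype.ext (funext fun i => (hc i).rot fun l => (v l).1 i)⟩
  have hθ : ∀ t, CompatN c' (th π t) := by
    intro t v w hvw
    show c (σ t) (fun l => (v l).1 (σ t)) = c (σ t) (fun l => (w l).1 (σ t))
    congr 1
    funext l
    exact hvw l
  have hb : ∀ i j, i ≠ j → ∀ x y, π i x = π i y → π j x = π j y → x = y := by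
    intro i j hij x y hi hj
    by_contra hxy
    have h1 : edge f x.1 ≠ edge f y.1 := fun h => hxy (Subtype.ext (edge_injective hf h))
    have h2 := hlin _ ⟨x.1, x.2, rfl⟩ _ ⟨y.1, y.2, rfl⟩ h1
    have hmem : ∀ t, π t x = π t y → f ⟨σ t, x.1 (σ t)⟩ ∈
        ((edge f x.1 : Set V) ∩ (edge f y.1 : Set V)) := by
      intro t ht
      refine ⟨mem_edge x.1 (σ t), ?_⟩
      have h3 : x.1 (σ t) = y.1 (σ t) := ht
      rw [h3]
      exact mem_edge y.1 (σ t)
    have h3 := h2 (hmem i hi) (hmem j hj)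
    have h4 := (Sigma.mk.inj (hf h3)).1
    exact hij (hσ h4)
  have hs : ∀ T : Finset A, #T = e → e + 3 < spn π T := by
    intro T hTe
    set T' : Finset (∀ i, X i) := T.map (Function.Embedding.subtype _) with hT'
    have hT'e : #T' = e := by rw [hT', card_map, hTe]
    have h1 := hH (T'.image (edge f)) (by
      rw [coe_image]
      intro a ha
      obtain ⟨x, hx, rfl⟩ := ha
      obtain ⟨y, -, rfl⟩ := mem_map.1 (mem_coe.1 hx)
      exact hFH ⟨y.1, y.2, rfl⟩)
      (by rw [card_image_of_injective _ (edge_injective hf), hT'e])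
    rw [union_eq hf] at h1
    set a : Fin (k + 3) → ℕ := fun i => #(T'.image fun x => x i) with ha
    have h2 : ∀ t, a (σ t) = #(T.image (π t)) := by
      intro t
      rw [ha]
      show #((T.map (Function.Embedding.subtype _)).image fun x => x (σ t)) = _
      rw [map_eq_image, image_image]
      rfl
    have h3 : ∑ i, a i ≤ spn π T + k * e := by
      rw [← sum_add_sum_compl (univ.image σ) a, sum_image (fun x _ y _ hxy => hσ hxy)]
      refine Nat.add_le_add (le_of_eq (sum_congr rfl fun t _ => h2 t)) ?_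
      have h4 : #(univ.image σ)ᶜ = k := by
        rw [card_compl, card_image_of_injective _ hσ, card_univ, Fintype.card_fin,
          Fintype.card_fin]
        omega
      have h5 := sum_le_card_nsmul (univ.image σ)ᶜ a e (fun i _ => by
        rw [ha]
        exact card_image_le.trans hT'e.le)
      rwa [h4, smul_eq_mul] at h5
    have h6 : k + 3 - 2 = k + 1 := by omega
    rw [h6] at h1
    have h7 : (k + 1) * e = k * e + e := by ring
    have h8 : (k + 1) * e + 3 < ∑ i, a i := h1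
    omega
  have hb := cyc_bound he (Fintype.card A) A π c' le_rfl hc' hθ hb hs
  have hcard : (edge f '' E).ncard = Fintype.card A := by
    rw [Set.ncard_image_of_injective _ (edge_injective hf), ← Nat.card_coe_set_eq,
      Nat.card_eq_fintype_card]
  rw [hcard]
  have h3 : ∏ t, #((univ : Finset A).image (π t)) ≤ ∏ t, Fintype.card (X (σ t)) :=
    prod_le_prod' fun i _ => card_le_univ _
  have h4 := amgm (univ : Finset (Fin 3)) univ_nonempty fun t => Fintype.card (X (σ t))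
  rw [card_univ, Fintype.card_fin] at h4
  have h5 : ∑ i, Fintype.card (X i) ≤ Fintype.card V := by
    rw [← Fintype.card_sigma]
    exact Fintype.card_le_of_injective f hf
  have h6 : (k + 3) ^ 3 * ∏ t, Fintype.card (X (σ t)) ≤ Fintype.card V ^ 3 := by
    have h7 : ((k + 3) * ∑ t, Fintype.card (X (σ t))) ^ 3 ≤ (3 * Fintype.card V) ^ 3 :=
      Nat.pow_le_pow_left (hσs.trans (Nat.mul_le_mul_left _ h5)) 3
    have h8 : (k + 3) ^ 3 * (3 ^ 3 * ∏ t, Fintype.card (X (σ t))) ≤
        (k + 3) ^ 3 * (∑ t, Fintype.card (X (σ t))) ^ 3 := Nat.mul_le_mul_left _ h4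
    rw [mul_pow, mul_pow] at h7
    have h9 : 3 ^ 3 * ((k + 3) ^ 3 * ∏ t, Fintype.card (X (σ t))) ≤
        3 ^ 3 * Fintype.card V ^ 3 := by
      calc 3 ^ 3 * ((k + 3) ^ 3 * ∏ t, Fintype.card (X (σ t)))
          = (k + 3) ^ 3 * (3 ^ 3 * ∏ t, Fintype.card (X (σ t))) := by ring
        _ ≤ _ := h8.trans h7
    exact Nat.le_of_mul_le_mul_left h9 (by norm_num)
  calc (k + 3) ^ 3 * Fintype.card A ^ 2
      ≤ (k + 3) ^ 3 * (((e - 1) ^ 2) ^ 2 * ∏ t, Fintype.card (X (σ t))) :=
        Nat.mul_le_mul_left _ (hb.trans (Nat.mul_le_mul_left _ h3))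
    _ = ((e - 1) ^ 2) ^ 2 * ((k + 3) ^ 3 * ∏ t, Fintype.card (X (σ t))) := by ring
    _ ≤ _ := Nat.mul_le_mul_left _ h6

theorem cyc_union_bound (r e L : ℕ) (hr : 3 ≤ r) (he : 2 ≤ e) (V : Type) [Fintype V]
    (H : Set (Finset V)) (F : Fin L → Set (Finset V)) (hF : ∀ i, CyclicPiece r (F i))
    (hlin : ∀ i, Linear (F i)) (hH : H = ⋃ i, F i) (hsp : SpanMore H e ((r - 2) * e + 3)) :
    (H.ncard : ℝ) ≤ (e - 1) ^ 2 * L * ((Fintype.card V : ℝ) / r) ^ (3 / 2 : ℝ) := by
  classical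
  have he1 : (0 : ℝ) ≤ (e : ℝ) - 1 := by
    have : (2 : ℝ) ≤ e := by exact_mod_cast he
    linarith
  have hr3 : (3 : ℝ) ≤ r := by exact_mod_cast hr
  have h1 : ∀ i, ((F i).ncard : ℝ) ≤
      (e - 1) ^ 2 * ((Fintype.card V : ℝ) / r) ^ (3 / 2 : ℝ) := by
    intro i
    have h2 := cyc_piece_bound (r := r) (e := e) hr he (H := H) hsp (hF i) (hlin i)
      (by rw [hH]; exact Set.subset_iUnion F i)
    refine le_of_pow_le_pow_left₀ (n := 2) (by norm_num) (by positivity) ?_
    have h3 : (((Fintype.card V : ℝ) / r) ^ (3 / 2 : ℝ)) ^ 2 =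
        ((Fintype.card V : ℝ) / r) ^ 3 := by
      rw [← Real.rpow_natCast, ← Real.rpow_mul (by positivity), ← Real.rpow_natCast _ 3]
      norm_num
    rw [mul_pow, h3]
    have h4 : ((r ^ 3 * (F i).ncard ^ 2 : ℕ) : ℝ) ≤
        ((((e - 1) ^ 2) ^ 2 * Fintype.card V ^ 3 : ℕ) : ℝ) := by exact_mod_cast h2
    rw [Nat.cast_mul, Nat.cast_mul, Nat.cast_pow, Nat.cast_pow, Nat.cast_pow, Nat.cast_pow,
      Nat.cast_pow, Nat.cast_sub (by omega), Nat.cast_one] at h4
    rw [div_pow, ← mul_div_assoc, le_div_iff₀ (by positivity)]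
    linarith
  have h6 : H.ncard ≤ ∑ i : Fin L, (F i).ncard := by
    rw [hH]
    exact Set.ncard_iUnion_le_of_fintype F
  calc (H.ncard : ℝ) ≤ ((∑ i : Fin L, (F i).ncard : ℕ) : ℝ) := by exact_mod_cast h6
    _ = ∑ i : Fin L, ((F i).ncard : ℝ) := by push_cast; rfl
    _ ≤ ∑ _i : Fin L, (e - 1) ^ 2 * ((Fintype.card V : ℝ) / r) ^ (3 / 2 : ℝ) :=
        sum_le_sum fun i _ => h1 i
    _ = (e - 1) ^ 2 * L * ((Fintype.card V : ℝ) / r) ^ (3 / 2 : ℝ) := by
        rw [sum_const, card_univ, Fintype.card_fin, nsmul_eq_mul]; ring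

end Pool.Agent.K9h48.BM
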