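import Pool.Agent.K9h48.BM.CycPieces

/-!
# Sharpness: lines of `r` directions in general position in a space of dimension three
-/

set_option autoImplicit false

namespace Pool.Agent.K9h48.BM

open Finset Pool.Agent.R181.Maj Pool.Agent.R181.LW

theorem of_mem_edge {V : Type} {r : ℕ} {X : Fin r → Type} {f : (Σ i, X i) → V} {x : ∀ i, X i}
    {v : V} (hv : v ∈ edge f x) : ∃ i, v = f ⟨i, x i⟩ := by
  classical
  rw [edge, mem_image] at hv
  obtain ⟨i, -, rfl⟩ := hv
  exact ⟨i, rfl⟩

section space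

variable {p : ℕ} [hp : Fact p.Prime] {r : ℕ}

/-- the projection of `F_p^3` along `(1, i, i²)` -/
def pr (r p : ℕ) (g : ZMod p × ZMod p × ZMod p) (i : Fin r) : ZMod p × ZMod p :=
  (g.2.1 - (i.val : ZMod p) * g.1, g.2.2 - (i.val : ZMod p) ^ 2 * g.1)

theorem cast_ne (hr : r ≤ p) {i j : Fin r} (hij : i ≠ j) :
    (i.val : ZMod p) - (j.val : ZMod p) ≠ 0 := by
  rw [sub_ne_zero]
  intro h
  rw [ZMod.natCast_eq_natCast_iff'] at h
  rw [Nat.mod_eq_of_lt (i.2.trans_le hr), Nat.mod_eq_of_lt (j.2.trans_le hr)] at h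
  exact hij (Fin.ext h)

theorem pr_eq {g g' : ZMod p × ZMod p × ZMod p} {i : Fin r} (h : pr r p g i = pr r p g' i) :
    g.2.1 - g'.2.1 = (i.val : ZMod p) * (g.1 - g'.1) ∧
      g.2.2 - g'.2.2 = (i.val : ZMod p) ^ 2 * (g.1 - g'.1) := by
  unfold pr at h
  rw [Prod.mk.injEq] at h
  obtain ⟨h1, h2⟩ := h
  constructor
  · linear_combination h1
  · linear_combination h2

theorem pr_two (hr : r ≤ p) {g g' : ZMod p × ZMod p × ZMod p} {i j : Fin r} (hij : i ≠ j)
    (h1 : pr r p g i = pr r p g' i) (h2 : pr r p g j = pr r p g' j) : g = g' := by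
  obtain ⟨a1, a2⟩ := pr_eq h1
  obtain ⟨b1, b2⟩ := pr_eq h2
  have h3 : ((i.val : ZMod p) - (j.val : ZMod p)) * (g.1 - g'.1) = 0 := by
    linear_combination b1 - a1
  have h4 : g.1 - g'.1 = 0 := (mul_eq_zero.1 h3).resolve_left (cast_ne hr hij)
  rw [h4, mul_zero] at a1 a2
  exact Prod.ext (sub_eq_zero.1 h4) (Prod.ext (sub_eq_zero.1 a1) (sub_eq_zero.1 a2))

theorem pr_three (hr : r ≤ p) {x y z : ZMod p × ZMod p × ZMod p} {i j k : Fin r} (hij : i ≠ j)
    (hik : i ≠ k) (h1 : pr r p x i = pr r p y i) (h2 : pr r p y j = pr r p z j)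
    (h3 : pr r p x k = pr r p z k) : x = y := by
  obtain ⟨a1, a2⟩ := pr_eq h1
  obtain ⟨b1, b2⟩ := pr_eq h2
  obtain ⟨c1, c2⟩ := pr_eq h3
  have h4 : ((i.val : ZMod p) - (j.val : ZMod p)) * (((i.val : ZMod p) - (k.val : ZMod p)) *
      (x.1 - y.1)) = 0 := by
    linear_combination (-1) * a2 - b2 + c2 + ((j.val : ZMod p) + (k.val : ZMod p)) *
      (a1 + b1 - c1)
  have h5 : x.1 - y.1 = 0 :=
    (mul_eq_zero.1 ((mul_eq_zero.1 h4).resolve_left (cast_ne hr hij))).resolve_left
      (cast_ne hr hik)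
  rw [h5, mul_zero] at a1 a2
  exact Prod.ext (sub_eq_zero.1 h5) (Prod.ext (sub_eq_zero.1 a1) (sub_eq_zero.1 a2))

theorem card_three_le {Y : Type*} [DecidableEq Y] (a b c : Y) :
    3 ≤ #{a, b, c} + (if a = b then 1 else 0) + (if b = c then 1 else 0) +
      (if a = c then 1 else 0) := by
  by_cases h1 : a = b
  · by_cases h2 : b = c
    · subst h1 h2
      simp
    · subst h1
      simp [h2, card_insert_of_notMem]
  · by_cases h2 : b = c
    · subst h2
      simp [h1, card_insert_of_notMem]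
    · by_cases h3 : a = c
      · subst h3
        rw [insert_comm]
        simp [h1, h2, card_insert_of_notMem]
      · rw [card_eq_three.2 ⟨a, b, c, h1, h3, h2, rfl⟩]
        simp [h1, h2, h3]

/-- Three points have at most two coincidences. -/
theorem three_points (hr : r ≤ p) (hr3 : 3 ≤ r) {x y z : ZMod p × ZMod p × ZMod p} (hxy : x ≠ y)
    (hyz : y ≠ z) (hxz : x ≠ z) :
    (r - 2) * 3 + 3 < ∑ i : Fin r, #{pr r p x i, pr r p y i, pr r p z i} := by
  by_cases hall : ∃ i, pr r p x i = pr r p y i ∧ pr r p y i = pr r p z i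
  · obtain ⟨i0, h1, h2⟩ := hall
    rw [← add_sum_erase univ _ (mem_univ i0)]
    have h3 : ∀ i ∈ univ.erase i0, 3 ≤ #{pr r p x i, pr r p y i, pr r p z i} := by
      intro i hi
      have hne : i ≠ i0 := (mem_erase.1 hi).1
      have h4 := card_three_le (pr r p x i) (pr r p y i) (pr r p z i)
      rw [if_neg fun h => hxy (pr_two hr hne h h1), if_neg fun h => hyz (pr_two hr hne h h2),
        if_neg fun h => hxz (pr_two hr hne h (h1.trans h2))] at h4
      exact h4
    have h5 := card_nsmul_le_sum _ _ _ h3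
    rw [card_erase_of_mem (mem_univ _), card_univ, Fintype.card_fin, smul_eq_mul] at h5
    have h6 : 1 ≤ #{pr r p x i0, pr r p y i0, pr r p z i0} := card_pos.2 (insert_nonempty _ _)
    omega
  · push Not at hall
    have h1 := sum_le_sum fun i (_ : i ∈ (univ : Finset (Fin r))) =>
      card_three_le (pr r p x i) (pr r p y i) (pr r p z i)
    rw [sum_add_distrib, sum_add_distrib, sum_add_distrib, sum_const, card_univ, Fintype.card_fin,
      smul_eq_mul, ← card_filter, ← card_filter, ← card_filter] at h1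
    have hle : ∀ u v : ZMod p × ZMod p × ZMod p, u ≠ v →
        #(univ.filter fun i : Fin r => pr r p u i = pr r p v i) ≤ 1 := by
      intro u v huv
      refine card_le_one.2 fun i hi j hj => ?_
      by_contra hij
      exact huv (pr_two hr hij (mem_filter.1 hi).2 (mem_filter.1 hj).2)
    have e1 := hle x y hxy
    have e2 := hle y z hyz
    have e3 := hle x z hxz
    have e4 : ¬ (#(univ.filter fun i : Fin r => pr r p x i = pr r p y i) = 1 ∧
        #(univ.filter fun i : Fin r => pr r p y i = pr r p z i) = 1 ∧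
        #(univ.filter fun i : Fin r => pr r p x i = pr r p z i) = 1) := by
      rintro ⟨c1, c2, c3⟩
      obtain ⟨i, hi⟩ := card_pos.1 (by rw [c1]; exact one_pos)
      obtain ⟨j, hj⟩ := card_pos.1 (by rw [c2]; exact one_pos)
      obtain ⟨k, hk⟩ := card_pos.1 (by rw [c3]; exact one_pos)
      have hi := (mem_filter.1 hi).2
      have hj := (mem_filter.1 hj).2
      have hk := (mem_filter.1 hk).2
      have hij : i ≠ j := by
        rintro rfl
        exact hall i hi hj
      have hik : i ≠ k := by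
        rintro rfl
        exact hall i hi (hi.symm.trans hk)
      exact hxy (pr_three hr hij hik hi hj hk)
    omega

end space

theorem cyc_sharp (r p : ℕ) (hp : p.Prime) (hr : 3 ≤ r) (hrp : r ≤ p) :
    ∃ (V : Type) (_ : Fintype V) (F : Set (Finset V)), Fintype.card V = r * p ^ 2 ∧
      CyclicPiece r F ∧ Linear F ∧ SpanMore F 3 ((r - 2) * 3 + 3) ∧ F.ncard = p ^ 3 := by
  classical
  have : Fact p.Prime := ⟨hp⟩
  have h2 : (2 : ZMod p) ≠ 0 := by
    intro h
    have h1 : ((2 : ℕ) : ZMod p) = 0 := by exact_mod_cast h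
    rw [ZMod.natCast_eq_zero_iff] at h1
    have := Nat.le_of_dvd (by norm_num) h1
    omega
  let f : (Σ _ : Fin r, ZMod p × ZMod p) → (Σ _ : Fin r, ZMod p × ZMod p) := id
  have hf : Function.Injective f := Function.injective_id
  have hinj : Function.Injective (pr r p) := by
    intro g g' h
    exact pr_two (r := r) hrp (i := ⟨0, by omega⟩) (j := ⟨1, by omega⟩)
      (by rw [Ne, Fin.ext_iff]; norm_num) (congrFun h _) (congrFun h _)
  refine ⟨Σ _ : Fin r, ZMod p × ZMod p, inferInstance, edge f '' Set.range (pr r p), ?_, ?_, ?_,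
    ?_, ?_⟩
  · rw [Fintype.card_sigma]
    simp [ZMod.card, sq]
  · refine ⟨fun _ => ZMod p × ZMod p, 0, fun _ v => (2 : ZMod p)⁻¹ • (v 0 + v 1), f,
      Set.range (pr r p), fun i => ⟨fun x => ?_, fun v => ?_⟩, hf, fun v hv => ?_, rfl⟩
    · show (2 : ZMod p)⁻¹ • (x + x) = x
      rw [← two_smul (ZMod p) x, smul_smul, inv_mul_cancel₀ h2, one_smul]
    · show (2 : ZMod p)⁻¹ • (v (0 + 1) + v (1 + 1)) = (2 : ZMod p)⁻¹ • (v 0 + v 1)
      have h3 : (1 + 1 : Fin (0 + 2)) = 0 := by decide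
      rw [h3, zero_add, add_comm]
    · obtain ⟨g0, h0⟩ := hv 0
      obtain ⟨g1, h1⟩ := hv 1
      refine ⟨(2 : ZMod p)⁻¹ • (g0 + g1), ?_⟩
      funext i
      show _ = (2 : ZMod p)⁻¹ • (v 0 i + v 1 i)
      rw [← h0, ← h1]
      unfold pr
      ext
      · simp only [Prod.smul_fst, Prod.smul_snd, Prod.fst_add, Prod.snd_add, smul_eq_mul]
        ring
      · simp only [Prod.smul_fst, Prod.smul_snd, Prod.fst_add, Prod.snd_add, smul_eq_mul]
        ring
  · rintro a ⟨_, ⟨g, rfl⟩, rfl⟩ b ⟨_, ⟨g', rfl⟩, rfl⟩ hab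
    have hgg : g ≠ g' := by
      rintro rfl
      exact hab rfl
    have hmem : ∀ (g : ZMod p × ZMod p × ZMod p) (v : Σ _ : Fin r, ZMod p × ZMod p),
        v ∈ (edge f (pr r p g) : Set (Σ _ : Fin r, ZMod p × ZMod p)) → v.2 = pr r p g v.1 := by
      intro g v hv
      obtain ⟨i, rfl⟩ := of_mem_edge (mem_coe.1 hv)
      rfl
    rintro v ⟨hv1, hv2⟩ w ⟨hw1, hw2⟩
    have a1 := hmem _ _ hv1
    have a2 := hmem _ _ hv2
    have b1 := hmem _ _ hw1
    have b2 := hmem _ _ hw2
    have hvw : v.1 = w.1 := by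
      by_contra hne
      exact hgg (pr_two hrp hne (a1.symm.trans a2) (b1.symm.trans b2))
    obtain ⟨i, v⟩ := v
    obtain ⟨j, w⟩ := w
    obtain rfl : i = j := hvw
    have hvw2 : v = w := a1.trans b1.symm
    rw [hvw2]
  · intro T hT hT3
    obtain ⟨a, b, c, hab, hac, hbc, rfl⟩ := card_eq_three.1 hT3
    have ha : a ∈ edge f '' Set.range (pr r p) := hT (by simp)
    have hb : b ∈ edge f '' Set.range (pr r p) := hT (by simp)
    have hc : c ∈ edge f '' Set.range (pr r p) := hT (by simp)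
    obtain ⟨_, ⟨x, rfl⟩, rfl⟩ := ha
    obtain ⟨_, ⟨y, rfl⟩, rfl⟩ := hb
    obtain ⟨_, ⟨z, rfl⟩, rfl⟩ := hc
    have h3 := union_eq hf
      ({pr r p x, pr r p y, pr r p z} : Finset (∀ _ : Fin r, ZMod p × ZMod p))
    rw [image_insert, image_insert, image_singleton] at h3
    have h4 := three_points hrp hr (x := x) (y := y) (z := z) (fun h => hab (by rw [h]))
      (fun h => hbc (by rw [h])) (fun h => hac (by rw [h]))
    have h5 : ∑ i : Fin r, #{pr r p x i, pr r p y i, pr r p z i} = ∑ i : Fin r,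
        #((({pr r p x, pr r p y, pr r p z} : Finset (∀ _ : Fin r, ZMod p × ZMod p))).image
          fun u => u i) := by
      refine sum_congr rfl fun i _ => ?_
      rw [image_insert, image_insert, image_singleton]
    rw [h5, ← h3] at h4
    convert h4
  · rw [Set.ncard_image_of_injective _ (edge_injective hf), ← Set.image_univ,
      Set.ncard_image_of_injective _ hinj, Set.ncard_univ, Nat.card_eq_fintype_card]
    simp only [Fintype.card_prod, ZMod.card]
    ring

end Pool.Agent.K9h48.BM
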