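import Pool.Agent.K9h48.BM.Sq

/-!
# Sparse configurations in complete Latin squares

If no `e` elements have at most `e + 3` coordinates, then a complete Latin square has at most
`(e - 1) ^ 2` cells.
-/

set_option autoImplicit false
set_option linter.unusedSectionVars false

namespace Pool.Agent.K9h48.BM

open Finset Pool.Agent.R181.Maj Pool.Agent.R181.LW

section latin

variable {A : Type*} [Fintype A] [DecidableEq A] {X : Fin 3 → Type*} [∀ i, DecidableEq (X i)]
  {π : ∀ i, A → X i}
  (hb : ∀ i j, i ≠ j → ∀ x y, π i x = π i y → π j x = π j y → x = y)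
  (hq : ∀ i j, i ≠ j → ∀ x y, ∃ u, π i x = π i u ∧ π j u = π j y)
  {e : ℕ} (hs : ∀ T : Finset A, #T = e → e + 3 < spn π T)

include hb hq hs in
theorem lat_row (he : 2 ≤ e) {i : Fin 3} {x0 x1 : A} (hrow : π i x0 ≠ π i x1) :
    #(univ.filter fun y => π i x0 = π i y) ≤ e - 1 := by
  obtain ⟨j, k, hij, hik, hjk, hl⟩ := triple i
  obtain ⟨u, hu, hux⟩ := hq i k hik x0 x1
  have hne : u ≠ x1 := by
    rintro rfl
    exact hrow hu
  set 𝒮 : Finset (Finset A) := univ.filter fun S => u ∈ S ∧ x1 ∈ S ∧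
    (∀ y ∈ S, π i x0 = π i y ∨ π i x1 = π i y) ∧ spn π S ≤ #S + 3 ∧ #S ≤ e with h𝒮
  have hne𝒮 : 𝒮.Nonempty := by
    refine ⟨insert u {x1}, mem_filter.2 ⟨mem_univ _, mem_insert_self _ _,
      mem_insert_of_mem (mem_singleton_self _), ?_, ?_, ?_⟩⟩
    · intro y hy
      rcases mem_insert.1 hy with rfl | hy
      · exact Or.inl hu
      · rw [mem_singleton.1 hy]
        exact Or.inr rfl
    · have h1 := ins_one (π := π) (T := {x1}) (y := u) (i := k)
        ⟨x1, mem_singleton_self _, hux.symm⟩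
      rw [spn_singleton] at h1
      rw [card_insert_of_notMem (by simpa using hne), card_singleton]
      omega
    · rw [card_insert_of_notMem (by simpa using hne), card_singleton]
      exact he
  obtain ⟨S, hS, hmax⟩ := exists_max_image 𝒮 card hne𝒮
  obtain ⟨-, huS, hx1S, hSR, hSs, hSe⟩ := mem_filter.1 hS
  have hlt : #S < e := by
    refine lt_of_le_of_ne hSe fun h1 => ?_
    have h2 := hs S h1
    omega
  have hmax' : ∀ y, (π i x0 = π i y ∨ π i x1 = π i y) → spn π (insert y S) ≤ #S + 4 → y ∈ S := by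
    intro y hy hsp
    by_contra hyS
    have h1 : insert y S ∈ 𝒮 := by
      refine mem_filter.2 ⟨mem_univ _, mem_insert_of_mem huS, mem_insert_of_mem hx1S, ?_, ?_, ?_⟩
      · intro z hz
        rcases mem_insert.1 hz with rfl | hz
        · exact hy
        · exact hSR z hz
      · rw [card_insert_of_notMem hyS]
        omega
      · rw [card_insert_of_notMem hyS]
        omega
    have h2 := hmax _ h1
    rw [card_insert_of_notMem hyS] at h2
    omega
  have htwo : ∀ y, (π i x0 = π i y ∨ π i x1 = π i y) → ∀ i' j', i' ≠ j' →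
      (∃ x ∈ S, th π i' x y) → (∃ x ∈ S, th π j' x y) → y ∈ S := by
    intro y hy i' j' hij' h1 h2
    refine hmax' y hy ?_
    have := ins_two hij' h1 h2
    omega
  set S0 := S.filter fun y => π i x0 = π i y with hS0
  set S1 := S.filter fun y => ¬ π i x0 = π i y with hS1
  have hcard : #S0 + #S1 = #S := card_filter_add_card_filter_not _
  have hS1' : ∀ y ∈ S1, π i x1 = π i y := by
    intro y hy
    rw [hS1, mem_filter] at hy
    exact (hSR y hy.1).resolve_left hy.2
  have e1 : #(S.image (π i)) ≤ 2 := by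
    have h1 : S.image (π i) ⊆ {π i x0, π i x1} := by
      intro a ha
      obtain ⟨y, hy, rfl⟩ := mem_image.1 ha
      rcases hSR y hy with h1 | h1
      · simp [h1]
      · simp [h1]
    exact (card_le_card h1).trans card_le_two
  have e2 : #(S.image (π j)) ≤ #S0 := by
    refine (card_le_card fun a ha => ?_).trans (card_image_le (s := S0) (f := π j))
    obtain ⟨y, hy, rfl⟩ := mem_image.1 ha
    obtain ⟨w, hw1, hw2⟩ := hq i j hij u y
    have hw : π i x0 = π i w := hu.trans hw1
    exact mem_image.2 ⟨w, mem_filter.2 ⟨htwo w (Or.inl hw) i j hij ⟨u, huS, hw1⟩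
      ⟨y, hy, hw2.symm⟩, hw⟩, hw2⟩
  have e3 : #(S.image (π k)) ≤ #S1 := by
    refine (card_le_card fun a ha => ?_).trans (card_image_le (s := S1) (f := π k))
    obtain ⟨y, hy, rfl⟩ := mem_image.1 ha
    obtain ⟨w, hw1, hw2⟩ := hq i k hik x1 y
    refine mem_image.2 ⟨w, mem_filter.2 ⟨htwo w (Or.inr hw1) i k hik ⟨x1, hx1S, hw1⟩
      ⟨y, hy, hw2.symm⟩, ?_⟩, hw2⟩
    rw [← hw1]
    exact hrow
  have e6 : spn π S ≤ #S + 2 := by
    rw [spn_three hij hik hjk hl]
    omega
  have hone : ∀ y, (π i x0 = π i y ∨ π i x1 = π i y) → ∀ i', (∃ x ∈ S, th π i' x y) → y ∈ S := by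
    intro y hy i' h1
    refine hmax' y hy ?_
    have := ins_one h1
    omega
  have hsub : (univ.filter fun y => π i x0 = π i y) ⊆ S := by
    intro y hy
    have hy' := (mem_filter.1 hy).2
    exact hone y (Or.inl hy') i ⟨u, huS, hu.symm.trans hy'⟩
  have := card_le_card hsub
  omega

include hb hq hs in
/-- A complete Latin square without sparse configurations has at most `(e - 1) ^ 2` cells. -/
theorem lat_small (he : 2 ≤ e) : Fintype.card A ≤ (e - 1) ^ 2 := by
  have h1sq : 1 ≤ (e - 1) ^ 2 := Nat.one_le_pow _ _ (by omega)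
  rcases isEmpty_or_nonempty A with hA | ⟨⟨x⟩⟩
  · rw [Fintype.card_eq_zero]
    exact Nat.zero_le _
  have hcase : ∀ i, (∀ y z, π i y = π i z) → Fintype.card A ≤ (e - 1) ^ 2 := by
    intro i hi
    refine le_trans ?_ h1sq
    rw [Fintype.card_le_one_iff]
    intro y z
    obtain ⟨j, k, hij, hik, hjk, hl⟩ := triple i
    obtain ⟨u, hu1, hu2⟩ := hq j k hjk y z
    have h1 : y = u := hb i j hij y u (hi y u) hu1
    have h2 : u = z := hb i k hik u z (hi u z) hu2
    exact h1.trans h2
  by_cases h0 : ∀ y z, π 0 y = π 0 z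
  · exact hcase 0 h0
  by_cases h1 : ∀ y z, π 1 y = π 1 z
  · exact hcase 1 h1
  push Not at h0 h1
  obtain ⟨y0, z0, hyz0⟩ := h0
  obtain ⟨y1, z1, hyz1⟩ := h1
  have hR : ∀ (i : Fin 3) (y z : A), π i y ≠ π i z → ∀ x,
      #(univ.filter fun t => π i x = π i t) ≤ e - 1 := by
    intro i y z hyz x
    by_cases hxy : π i x = π i y
    · exact lat_row hb hq hs he (x1 := z) (by rw [hxy]; exact hyz)
    · exact lat_row hb hq hs he (x1 := y) hxy
  set C := univ.filter fun y => π 1 x = π 1 y with hC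
  have hCe : #C ≤ e - 1 := hR 1 y1 z1 hyz1 x
  have hsub : (univ : Finset A) ⊆ C.biUnion fun u => univ.filter fun y => π 0 u = π 0 y := by
    intro y _
    obtain ⟨u, a1, a2⟩ := hq 1 0 (by decide) x y
    rw [mem_biUnion]
    exact ⟨u, mem_filter.2 ⟨mem_univ _, a1⟩, mem_filter.2 ⟨mem_univ _, a2⟩⟩
  rw [← card_univ]
  refine (card_le_card hsub).trans ?_
  refine (card_biUnion_le_card_mul C _ (e - 1) fun u _ => hR 0 y0 z0 hyz0 u).trans ?_
  rw [sq]
  exact Nat.mul_le_mul_right _ hCe

end latin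

end Pool.Agent.K9h48.BM
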