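import Pool.Agent.K9h48.BM.Cg
import Pool.Agent.R181.MajPieces

/-!
# Few elements in the classes of the upper median

If no `e` elements have at most `e + 3` coordinates then the classes of the upper median of the
kernels of three coordinates have at most `(e - 1) ^ 2` elements.
-/

set_option autoImplicit false
set_option linter.unusedSectionVars false

universe u

namespace Pool.Agent.K9h48.BM

open Finset Pool.Agent.R181.Maj Pool.Agent.R181.LW

/-- The kernels of the coordinates. -/
def th {A : Type*} {X : Fin 3 → Type*} (π : ∀ i, A → X i) (i : Fin 3) : Setoid A :=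
  Setoid.ker (π i)

theorem meet4 : ∀ i j i' j' : Fin 3, i ≠ j → i' ≠ j' →
    i' = i ∨ i' = j ∨ j' = i ∨ j' = j := by
  decide

theorem triple (i : Fin 3) : ∃ j k : Fin 3, i ≠ j ∧ i ≠ k ∧ j ≠ k ∧ ∀ l, l = i ∨ l = j ∨ l = k := by
  revert i
  decide

section

variable {A : Type*} [Fintype A] {X : Fin 3 → Type*} [∀ i, DecidableEq (X i)] {π : ∀ i, A → X i}

theorem spn_three {i j k : Fin 3} (hij : i ≠ j) (hik : i ≠ k) (hjk : j ≠ k)
    (hl : ∀ l, l = i ∨ l = j ∨ l = k) (T : Finset A) :
    spn π T = #(T.image (π i)) + #(T.image (π j)) + #(T.image (π k)) := by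
  have h : (univ : Finset (Fin 3)) = {i, j, k} := by
    ext l
    simp [hl l]
  rw [spn, h, sum_insert (by simp [hij, hik]), sum_insert (by simp [hjk]), sum_singleton, add_assoc]

variable [DecidableEq A]

theorem card_ins (T : Finset A) (y : A) (i : Fin 3) :
    #((insert y T).image (π i)) ≤ #(T.image (π i)) + 1 := by
  rw [image_insert]
  exact card_insert_le _ _

theorem card_ins' {T : Finset A} {y : A} {i : Fin 3} (h : ∃ x ∈ T, th π i x y) :
    #((insert y T).image (π i)) = #(T.image (π i)) := by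
  obtain ⟨x, hx, hxy⟩ := h
  rw [image_insert, insert_eq_of_mem]
  have h1 : π i x = π i y := hxy
  rw [← h1]
  exact mem_image_of_mem _ hx

theorem ins_one {T : Finset A} {y : A} {i : Fin 3} (h : ∃ x ∈ T, th π i x y) :
    spn π (insert y T) ≤ spn π T + 2 := by
  obtain ⟨j, k, hij, hik, hjk, hl⟩ := triple i
  rw [spn_three hij hik hjk hl, spn_three hij hik hjk hl, card_ins' h]
  have h1 := card_ins (π := π) T y j
  have h2 := card_ins (π := π) T y k
  omega

theorem ins_two {T : Finset A} {y : A} {i j : Fin 3} (hij : i ≠ j) (h : ∃ x ∈ T, th π i x y)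
    (h' : ∃ x ∈ T, th π j x y) : spn π (insert y T) ≤ spn π T + 1 := by
  obtain ⟨k, hki, hkj, hl⟩ := third i j hij
  rw [spn_three hij hki.symm hkj.symm hl, spn_three hij hki.symm hkj.symm hl, card_ins' h,
    card_ins' h']
  have h2 := card_ins (π := π) T y k
  omega

theorem spn_singleton (x : A) : spn π {x} = 3 := by
  simp [spn]

theorem conn {T : Finset A} {x : A} (hx : x ∈ T) {i j : Fin 3}
    (hc : ∀ U ⊆ T, x ∈ U → (∀ y ∈ U, ∀ z ∈ T, (th π i y z ∨ th π j y z) → z ∈ U) → T ⊆ U) :
    #(T.image (π i)) + #(T.image (π j)) ≤ #T + 1 := by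
  set 𝒰 : Finset (Finset A) := T.powerset.filter fun U =>
    x ∈ U ∧ #(U.image (π i)) + #(U.image (π j)) ≤ #U + 1 with h𝒰
  have hne : 𝒰.Nonempty := by
    refine ⟨{x}, mem_filter.2 ⟨mem_powerset.2 (singleton_subset_iff.2 hx), mem_singleton_self x, ?_⟩⟩
    simp
  obtain ⟨U, hU, hmax⟩ := exists_max_image 𝒰 card hne
  obtain ⟨hUT, hxU, hUc⟩ := mem_filter.1 hU
  rw [mem_powerset] at hUT
  have h1 : T ⊆ U := by
    refine hc U hUT hxU fun y hy z hz hyz => ?_
    by_contra hzU
    have h2 : insert z U ∈ 𝒰 := by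
      refine mem_filter.2 ⟨mem_powerset.2 (insert_subset_iff.2 ⟨hz, hUT⟩),
        mem_insert_of_mem hxU, ?_⟩
      rw [card_insert_of_notMem hzU]
      rcases hyz with h | h
      · rw [card_ins' ⟨y, hy, h⟩]
        have := card_ins (π := π) U z j
        omega
      · rw [card_ins' (i := j) ⟨y, hy, h⟩]
        have := card_ins (π := π) U z i
        omega
    have h3 := hmax _ h2
    rw [card_insert_of_notMem hzU] at h3
    omega
  rwa [subset_antisymm hUT h1] at hUc

end

section main

variable {A : Type*} [Fintype A] [DecidableEq A] {X : Fin 3 → Type*} [∀ i, DecidableEq (X i)]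
  {π : ∀ i, A → X i} {m : ℕ} {d : ℕ → A → A → A → A} {p : A → A → A → A}
  (h : Gumm m d p) (hθ : ∀ i, Cg m d p (th π i)) {e : ℕ}
  (hs : ∀ T : Finset A, #T = e → e + 3 < spn π T)

open Classical in
include hs in
theorem low_small (he : 1 ≤ e) (x : A) : #(univ.filter fun y => low (th π) x y) ≤ e - 1 := by
  let w : Setoid A := Relation.EqvGen.setoid (Share π)
  have hw : low (th π) ≤ w := low_le fun i j hij y z hyz =>
    Relation.EqvGen.rel _ _ ⟨i, j, hij, hyz.1, hyz.2⟩
  by_contra hcon
  push Not at hcon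
  have h1 : (univ.filter fun y => low (th π) x y) ⊆ univ.filter fun y => w x y := by
    intro y hy
    rw [mem_filter] at hy ⊢
    exact ⟨mem_univ _, hw hy.2⟩
  have h2 := card_le_card h1
  obtain ⟨T, -, hTe, hT⟩ := growth (by norm_num : 2 ≤ 3) π x (univ.filter fun y => w x y)
    (fun y => by rw [mem_filter]; exact ⟨fun h => h.2, fun h => ⟨mem_univ _, h⟩⟩) e he (by omega)
  have h3 := hs T hTe
  omega

theorem row_of_low {i : Fin 3} : low (th π) ≤ row (th π) i := le_sup_right

theorem row_of_inf {i : Fin 3} : th π i ⊓ up (th π) ≤ row (th π) i := le_sup_left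

open Classical in
include h hθ in
theorem conn_row {S : Finset A} {x0 u : A} {i j : Fin 3} (hij : i ≠ j)
    (hlow : ∀ a ∈ S, ∀ b, low (th π) a b → b ∈ S) (huS : u ∈ S) (hu : row (th π) i x0 u) :
    #((S.filter fun y => row (th π) i x0 y).image (π i)) +
      #((S.filter fun y => row (th π) i x0 y).image (π j)) ≤
      #(S.filter fun y => row (th π) i x0 y) + 1 := by
  refine conn (x := u) (mem_filter.2 ⟨huS, hu⟩) fun U hUS huU hU => ?_
  have hlowU : ∀ a ∈ U, ∀ b, low (th π) a b → b ∈ U := by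
    have h1 : low (th π) ≤ Setoid.ker (fun a => a ∈ U) := by
      refine low_le fun i' j' hij' y z hyz => ?_
      have hstep : ∀ y z, (th π i' ⊓ th π j') y z → y ∈ U → z ∈ U := by
        intro y z hyz hy
        have hy' := mem_filter.1 (hUS hy)
        have hl : low (th π) y z := inf_le_low hij' hyz
        have hz : z ∈ S.filter fun y => row (th π) i x0 y :=
          mem_filter.2 ⟨hlow y hy'.1 z hl, (row (th π) i).trans hy'.2 (row_of_low hl)⟩
        have h2 := meet4 i j i' j' hij hij'
        refine hU y hy z hz ?_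
        rcases h2 with rfl | rfl | rfl | rfl
        · exact Or.inl hyz.1
        · exact Or.inr hyz.1
        · exact Or.inl hyz.2
        · exact Or.inr hyz.2
      exact propext ⟨hstep y z hyz, hstep z y ((th π i' ⊓ th π j').symm hyz)⟩
    intro a ha b hab
    have h2 : (a ∈ U) = (b ∈ U) := h1 hab
    rwa [← h2]
  intro y hy
  obtain ⟨w, h1, h2⟩ := row_rel h hθ ((row (th π) i).trans ((row (th π) i).symm hu)
    (mem_filter.1 hy).2)
  exact hU w (hlowU u huU w h1) y hy (Or.inl h2.1)

open Classical in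
include h hθ hs in
theorem row_small (he : 2 ≤ e) {i : Fin 3} {x0 x1 : A} (hup : up (th π) x0 x1)
    (hrow : ¬ row (th π) i x0 x1) : #(univ.filter fun y => row (th π) i x0 y) ≤ e - 1 := by
  obtain ⟨j, k, hij, hik, hjk, hl⟩ := triple i
  set R := row (th π) i with hR
  obtain ⟨x0', u, a1, a2, a3⟩ := square h hθ hik hup
  have hu : R x0 u := R.trans (row_of_low a1) (row_of_inf a2)
  have hne : u ≠ x1 := by
    rintro rfl
    exact hrow hu
  set 𝒮 : Finset (Finset A) := univ.filter fun S => u ∈ S ∧ x1 ∈ S ∧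
    (∀ y ∈ S, R x0 y ∨ R x1 y) ∧ spn π S ≤ #S + 3 ∧ #S ≤ e with h𝒮
  have hne𝒮 : 𝒮.Nonempty := by
    refine ⟨insert u {x1}, mem_filter.2 ⟨mem_univ _, mem_insert_self _ _,
      mem_insert_of_mem (mem_singleton_self _), ?_, ?_, ?_⟩⟩
    · intro y hy
      rcases mem_insert.1 hy with rfl | hy
      · exact Or.inl hu
      · rw [mem_singleton.1 hy]
        exact Or.inr (R.refl _)
    · have h1 := ins_one (π := π) (T := {x1}) (y := u) (i := k)
        ⟨x1, mem_singleton_self _, (th π k).symm a3.1⟩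
      rw [spn_singleton] at h1
      rw [card_insert_of_notMem (by simpa using hne), card_singleton]
      omega
    · rw [card_insert_of_notMem (by simpa using hne), card_singleton]
      exact he
  obtain ⟨S, hS, hmax⟩ := exists_max_image 𝒮 card hne𝒮
  obtain ⟨-, huS, hx1S, hSR, hSs, hSe⟩ := mem_filter.1 hS
  have hlt : #S < e := by
    refine lt_of_le_of_ne hSe fun h1 => ?_
    have h2 := hs S h1
    omega
  have hmax' : ∀ y, (R x0 y ∨ R x1 y) → spn π (insert y S) ≤ #S + 4 → y ∈ S := by
    intro y hy hsp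
    by_contra hyS
    have h1 : insert y S ∈ 𝒮 := by
      refine mem_filter.2 ⟨mem_univ _, mem_insert_of_mem huS, mem_insert_of_mem hx1S, ?_, ?_, ?_⟩
      · intro z hz
        rcases mem_insert.1 hz with rfl | hz
        · exact hy
        · exact hSR z hz
      · rw [card_insert_of_notMem hyS]
        omega
      · rw [card_insert_of_notMem hyS]
        omega
    have h2 := hmax _ h1
    rw [card_insert_of_notMem hyS] at h2
    omega
  have htwo : ∀ y, (R x0 y ∨ R x1 y) → ∀ i' j', i' ≠ j' → (∃ x ∈ S, th π i' x y) →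
      (∃ x ∈ S, th π j' x y) → y ∈ S := by
    intro y hy i' j' hij' h1 h2
    refine hmax' y hy ?_
    have := ins_two hij' h1 h2
    omega
  have hlow : ∀ a ∈ S, ∀ b, low (th π) a b → b ∈ S := by
    have h1 : low (th π) ≤ Setoid.ker (fun a => a ∈ S) := by
      refine low_le fun i' j' hij' y z hyz => ?_
      have hstep : ∀ y z, (th π i' ⊓ th π j') y z → y ∈ S → z ∈ S := by
        intro y z hyz hy
        have hl : R y z := row_of_low (inf_le_low hij' hyz)
        refine htwo z ?_ i' j' hij' ⟨y, hy, hyz.1⟩ ⟨y, hy, hyz.2⟩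
        rcases hSR y hy with h2 | h2
        · exact Or.inl (R.trans h2 hl)
        · exact Or.inr (R.trans h2 hl)
      exact propext ⟨hstep y z hyz, hstep z y ((th π i' ⊓ th π j').symm hyz)⟩
    intro a ha b hab
    have h2 : (a ∈ S) = (b ∈ S) := h1 hab
    rwa [← h2]
  -- transfer
  have htr : ∀ v ∈ S, ∀ x ∈ S, up (th π) v x → ∀ l, i ≠ l → ∃ w ∈ S, R v w ∧ th π l w x := by
    intro v hv x hx hvx l hil
    obtain ⟨v1, w, b1, b2, b3⟩ := square h hθ hil hvx
    have hvw : R v w := R.trans (row_of_low b1) (row_of_inf b2)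
    refine ⟨w, ?_, hvw, b3.1⟩
    refine htwo w ?_ i l hil ⟨v1, hlow v hv v1 b1, b2.1⟩ ⟨x, hx, (th π l).symm b3.1⟩
    rcases hSR v hv with h2 | h2
    · exact Or.inl (R.trans h2 hvw)
    · exact Or.inr (R.trans h2 hvw)
  have hupS : ∀ y, (R x0 y ∨ R x1 y) → up (th π) x0 y := by
    intro y hy
    rcases hy with h1 | h1
    · exact row_le_up h1
    · exact (up (th π)).trans hup (row_le_up h1)
  set S0 := S.filter fun y => R x0 y with hS0
  set S1 := S.filter fun y => R x1 y with hS1
  have hU : S = S0 ∪ S1 := by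
    ext y
    rw [mem_union, hS0, hS1, mem_filter, mem_filter]
    constructor
    · intro hy
      rcases hSR y hy with h1 | h1
      · exact Or.inl ⟨hy, h1⟩
      · exact Or.inr ⟨hy, h1⟩
    · rintro (h1 | h1)
      · exact h1.1
      · exact h1.1
  have hD : Disjoint S0 S1 := by
    rw [Finset.disjoint_left]
    intro y h1 h2
    exact hrow (R.trans (mem_filter.1 h1).2 (R.symm (mem_filter.1 h2).2))
  have hcard : #S = #S0 + #S1 := by
    conv_lhs => rw [hU]
    exact card_union_of_disjoint hD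
  have e1 : #(S.image (π i)) ≤ #(S0.image (π i)) + #(S1.image (π i)) := by
    conv_lhs => rw [hU]
    rw [image_union]
    exact card_union_le _ _
  have e2 : #(S.image (π j)) ≤ #(S0.image (π j)) := by
    refine card_le_card fun a ha => ?_
    obtain ⟨y, hy, rfl⟩ := mem_image.1 ha
    obtain ⟨w, hw, hw1, hw2⟩ := htr u huS y hy
      ((up (th π)).trans ((up (th π)).symm (hupS u (Or.inl hu))) (hupS y (hSR y hy))) j hij
    refine mem_image.2 ⟨w, mem_filter.2 ⟨hw, R.trans hu hw1⟩, hw2⟩
  have e3 : #(S.image (π k)) ≤ #(S1.image (π k)) := by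
    refine card_le_card fun a ha => ?_
    obtain ⟨y, hy, rfl⟩ := mem_image.1 ha
    obtain ⟨w, hw, hw1, hw2⟩ := htr x1 hx1S y hy
      ((up (th π)).trans ((up (th π)).symm hup) (hupS y (hSR y hy))) k hik
    refine mem_image.2 ⟨w, mem_filter.2 ⟨hw, hw1⟩, hw2⟩
  have e4 := conn_row h hθ hij hlow huS hu
  have e5 := conn_row h hθ hik hlow hx1S (x0 := x1) (R.refl _)
  have e6 : spn π S ≤ #S + 2 := by
    rw [spn_three hij hik hjk hl, hcard]
    have e4' : #(S0.image (π i)) + #(S0.image (π j)) ≤ #S0 + 1 := e4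
    have e5' : #(S1.image (π i)) + #(S1.image (π k)) ≤ #S1 + 1 := e5
    omega
  have hone : ∀ y, (R x0 y ∨ R x1 y) → ∀ i', (∃ x ∈ S, th π i' x y) → y ∈ S := by
    intro y hy i' h1
    refine hmax' y hy ?_
    have := ins_one h1
    omega
  have hsub : (univ.filter fun y => R x0 y) ⊆ S := by
    intro y hy
    have hy' := (mem_filter.1 hy).2
    obtain ⟨w, b1, b2⟩ := row_rel h hθ (R.trans (R.symm hy') hu)
    have hw : w ∈ S := hone w (Or.inl (R.trans hy' (row_of_low b1))) i ⟨u, huS, (th π i).symm b2.1⟩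
    exact hlow w hw y ((low (th π)).symm b1)
  have := card_le_card hsub
  omega

include h hθ in
theorem single_row {i : Fin 3} {x : A} (hx : ∀ y, up (th π) x y → row (th π) i x y) {y : A}
    (hy : up (th π) x y) : low (th π) x y := by
  obtain ⟨j, k, hij, hik, hjk, hl⟩ := triple i
  obtain ⟨x', u, a1, a2, a3⟩ := square h hθ hjk hy
  have hx' : up (th π) x x' := low_le_up a1
  have hu : up (th π) x u := (up (th π)).trans hx' a2.2
  have b1 : low (th π) x' u := fact1 h hθ hij a2.1
    (row_le ((row (th π) i).trans ((row (th π) i).symm (hx x' hx')) (hx u hu)))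
  have b2 : low (th π) u y := fact1 h hθ hik a3.1
    (row_le ((row (th π) i).trans ((row (th π) i).symm (hx u hu)) (hx y hy)))
  exact (low (th π)).trans a1 ((low (th π)).trans b1 b2)

open Classical in
include h hθ hs in
theorem up_small (he : 2 ≤ e) (x : A) : #(univ.filter fun y => up (th π) x y) ≤ (e - 1) ^ 2 := by
  have hsq : e - 1 ≤ (e - 1) ^ 2 := Nat.le_self_pow (by norm_num) _
  have hcase : ∀ i, (∀ y, up (th π) x y → row (th π) i x y) →
      #(univ.filter fun y => up (th π) x y) ≤ (e - 1) ^ 2 := by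
    intro i hi
    refine le_trans (card_le_card ?_) ((low_small hs (by omega) x).trans hsq)
    intro y hy
    rw [mem_filter] at hy ⊢
    exact ⟨mem_univ _, single_row h hθ hi hy.2⟩
  by_cases h0 : ∀ y, up (th π) x y → row (th π) 0 x y
  · exact hcase 0 h0
  by_cases h1 : ∀ y, up (th π) x y → row (th π) 1 x y
  · exact hcase 1 h1
  push Not at h0 h1
  obtain ⟨y0, hy0, hy0'⟩ := h0
  obtain ⟨y1, hy1, hy1'⟩ := h1
  set C := univ.filter fun y => row (th π) 1 x y with hC
  have hCe : #C ≤ e - 1 := row_small h hθ hs he hy1 hy1'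
  have hsub : (univ.filter fun y => up (th π) x y) ⊆
      C.biUnion fun u => univ.filter fun y => row (th π) 0 u y := by
    intro y hy
    obtain ⟨x', u, a1, a2, a3⟩ := square h hθ (i := 1) (j := 0) (by decide) (mem_filter.1 hy).2
    rw [mem_biUnion]
    exact ⟨u, mem_filter.2 ⟨mem_univ _, (row (th π) 1).trans (row_of_low a1) (row_of_inf a2)⟩,
      mem_filter.2 ⟨mem_univ _, row_of_inf a3⟩⟩
  refine (card_le_card hsub).trans ?_
  refine (card_biUnion_le_card_mul C _ (e - 1) fun u hu => ?_).trans ?_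
  · have hxu : up (th π) x u := row_le_up (mem_filter.1 hu).2
    by_cases hux : row (th π) 0 u x
    · refine row_small h hθ hs he (x1 := y0) ((up (th π)).trans ((up (th π)).symm hxu) hy0) ?_
      intro hc
      exact hy0' ((row (th π) 0).trans ((row (th π) 0).symm hux) hc)
    · exact row_small h hθ hs he (x1 := x) ((up (th π)).symm hxu) hux
  · rw [sq]
    exact Nat.mul_le_mul_right _ hCe

end main

section count

variable {A : Type u} [Fintype A] {X : Fin 3 → Type u} [∀ i, DecidableEq (X i)]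
  {π : ∀ i, A → X i} {m : ℕ} {d : ℕ → A → A → A → A} {p : A → A → A → A}

/-- **Main bound** for three coordinates. -/
theorem three_bound (h : Gumm m d p) (hθ : ∀ i, Cg m d p (th π i)) {e : ℕ} (he : 2 ≤ e)
    (hs : ∀ T : Finset A, #T = e → e + 3 < spn π T) :
    Fintype.card A ^ 2 ≤ ((e - 1) ^ 2) ^ 2 * ∏ i, #((univ : Finset A).image (π i)) := by
  classical
  rcases isEmpty_or_nonempty A with hA | hA
  · simp
  let ψ : Fin 3 → Setoid A := fun k => ⨆ i ∈ {i : Fin 3 | i ≠ k}, th π i
  have hψ : ∀ i k, i ≠ k → th π i ≤ ψ k := fun i k hik =>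
    le_iSup₂_of_le (f := fun i (_ : i ∈ {i : Fin 3 | i ≠ k}) => th π i) i hik le_rfl
  have hψup : ∀ x y, (∀ k, ψ k x y) → up (th π) x y := by
    intro x y hxy
    have h1 : ∀ i j, i ≠ j → (th π i ⊔ th π j) x y := by
      intro i j hij
      obtain ⟨k, hki, hkj, hl⟩ := third i j hij
      have h2 : ψ k ≤ th π i ⊔ th π j := by
        refine iSup₂_le fun l hl' => ?_
        rcases hl l with rfl | rfl | rfl
        · exact le_sup_left
        · exact le_sup_right
        · exact absurd rfl hl'
      exact h2 (hxy k)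
    exact ⟨⟨h1 0 1 (by decide), h1 1 2 (by decide)⟩, h1 0 2 (by decide)⟩
  let Φ : A → ∀ k, Quotient (ψ k) := fun x k => Quotient.mk _ x
  have hΦ : ∀ x y k, Φ x k = Φ y k ↔ ψ k x y := fun x y k => Quotient.eq
  have h1 : #(univ : Finset A) ≤ (e - 1) ^ 2 * #(univ.image Φ) := by
    refine card_le_mul_card_image_of_maps_to (f := Φ) (fun x hx => mem_image_of_mem _ hx) _ ?_
    intro b hb
    obtain ⟨x₀, -, rfl⟩ := mem_image.1 hb
    refine le_trans (card_le_card ?_) (up_small h hθ hs he x₀)
    intro y hy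
    rw [mem_filter] at hy ⊢
    refine ⟨mem_univ _, (up (th π)).symm (hψup _ _ fun k => ?_)⟩
    exact (hΦ y x₀ k).1 (congrFun hy.2 k)
  have h2 := loomisWhitney 2 (fun k => Quotient (ψ k)) (univ.image Φ)
    (univ_nonempty.image Φ)
  have h3 : ∀ i : Fin 3, #((univ.image Φ).image fun x => i.removeNth x) ≤
      #((univ : Finset A).image (π i)) := by
    intro i
    rw [image_image]
    refine card_image_le_of_factor (univ : Finset A) (π i) _ ?_
    intro x _ y _ hxy
    funext k
    show Φ x (i.succAbove k) = Φ y (i.succAbove k)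
    rw [hΦ]
    exact hψ i _ (Fin.succAbove_ne i k).symm hxy
  calc Fintype.card A ^ 2 ≤ ((e - 1) ^ 2 * #(univ.image Φ)) ^ 2 := by
        rw [← card_univ]
        exact Nat.pow_le_pow_left h1 _
    _ = ((e - 1) ^ 2) ^ 2 * #(univ.image Φ) ^ 2 := mul_pow _ _ _
    _ ≤ ((e - 1) ^ 2) ^ 2 * ∏ i : Fin 3, #((univ.image Φ).image fun x => i.removeNth x) :=
        Nat.mul_le_mul_left _ h2
    _ ≤ _ := Nat.mul_le_mul_left _ (prod_le_prod' fun i _ => h3 i)

end count

end Pool.Agent.K9h48.BM
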